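import Mathlib

/-!
# Greedy embedding of a fixed graph into a graph with small non-degrees
-/

namespace Pool.Agent.H32.Tight

open Finset SimpleGraph

open scoped Classical in
/-- Greedy choice. A core set `A` of vertices of `L` is already embedded by `φ₀`; every other
vertex `w` has a list `C w` of candidates, and along edges of `L` each possible image has at most
`d` non-neighbours in the list of the other endpoint. -/
theorem greedy_choice {W V : Type} [Fintype W] [Fintype V]
    (L : SimpleGraph W) (G : SimpleGraph V) (A : Finset W) (φ₀ : W → V)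
    (C : W → Finset V) (d : ℕ)
    (hinj : ∀ a ∈ A, ∀ b ∈ A, φ₀ a = φ₀ b → a = b)
    (hadj : ∀ a ∈ A, ∀ b ∈ A, L.Adj a b → G.Adj (φ₀ a) (φ₀ b))
    (hA : ∀ a ∈ A, ∀ w, w ∉ A → L.Adj a w → #{x ∈ C w | ¬ G.Adj (φ₀ a) x} ≤ d)
    (hC : ∀ w, w ∉ A → ∀ w', w' ∉ A → L.Adj w w' → ∀ x ∈ C w, #{y ∈ C w' | ¬ G.Adj x y} ≤ d)
    (hs : ∀ w, w ∉ A → Fintype.card W * (d + 1) ≤ #(C w)) :
    ∃ φ : W → V, Function.Injective φ ∧ (∀ a b, L.Adj a b → G.Adj (φ a) (φ b)) ∧
      (∀ a ∈ A, φ a = φ₀ a) ∧ (∀ w, w ∉ A → φ w ∈ C w) := by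
  have key : ∀ S : Finset W, Disjoint S A → ∃ φ : W → V, (∀ a ∈ A, φ a = φ₀ a) ∧
      (∀ w ∈ S, φ w ∈ C w) ∧ (∀ a ∈ A ∪ S, ∀ b ∈ A ∪ S, φ a = φ b → a = b) ∧
      (∀ a ∈ A ∪ S, ∀ b ∈ A ∪ S, L.Adj a b → G.Adj (φ a) (φ b)) := by
    intro S
    induction S using Finset.induction_on with
    | empty =>
      intro _
      refine ⟨φ₀, fun a _ => rfl, by simp, ?_, ?_⟩
      · simpa using hinj
      · simpa using hadj
    | insert w S hw ih =>
      intro hd
      rw [Finset.disjoint_insert_left] at hd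
      obtain ⟨hwA, hSA⟩ := hd
      obtain ⟨φ, h1, h2, h3, h4⟩ := ih hSA
      -- the forbidden set
      let F : Finset V := (A ∪ S).biUnion fun u =>
        insert (φ u) (if L.Adj u w then {x ∈ C w | ¬ G.Adj (φ u) x} else ∅)
      have hFcard : #F ≤ #(A ∪ S) * (d + 1) := by
        refine Finset.card_biUnion_le_card_mul _ _ _ ?_
        intro u hu
        refine (Finset.card_insert_le _ _).trans ?_
        gcongr
        split_ifs with huw
        · rcases Finset.mem_union.1 hu with huA | huS
          · rw [h1 u huA]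
            exact hA u huA w hwA huw
          · have huA : u ∉ A := fun h => (Finset.disjoint_left.1 hSA huS h)
            exact hC u huA w hwA huw _ (h2 u huS)
        · simp
      have hwAS : w ∉ A ∪ S := by simp [hwA, hw]
      have hlt : #(A ∪ S) < Fintype.card W := by
        refine Finset.card_lt_univ_of_notMem hwAS
      have hFC : #F < #(C w) := by
        refine lt_of_le_of_lt hFcard (lt_of_lt_of_le ?_ (hs w hwA))
        exact Nat.mul_lt_mul_of_pos_right hlt (Nat.succ_pos d)
      obtain ⟨x, hxC, hxF⟩ := Finset.exists_mem_notMem_of_card_lt_card hFC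
      have hx1 : ∀ u ∈ A ∪ S, φ u ≠ x := by
        intro u hu hux
        apply hxF
        rw [Finset.mem_biUnion]
        exact ⟨u, hu, by rw [hux]; exact Finset.mem_insert_self _ _⟩
      have hx2 : ∀ u ∈ A ∪ S, L.Adj u w → G.Adj (φ u) x := by
        intro u hu huw
        by_contra hcon
        apply hxF
        rw [Finset.mem_biUnion]
        refine ⟨u, hu, Finset.mem_insert_of_mem ?_⟩
        rw [if_pos huw, Finset.mem_filter]
        exact ⟨hxC, hcon⟩
      have hne : ∀ u ∈ A ∪ S, u ≠ w := fun u hu h => hwAS (h ▸ hu)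
      have hupd : ∀ u ∈ A ∪ S, Function.update φ w x u = φ u := fun u hu =>
        Function.update_of_ne (hne u hu) _ _
      have hself : Function.update φ w x w = x := Function.update_self _ _ _
      refine ⟨Function.update φ w x, ?_, ?_, ?_, ?_⟩
      · intro a ha
        rw [hupd a (Finset.mem_union_left _ ha), h1 a ha]
      · intro u hu
        rcases Finset.mem_insert.1 hu with rfl | hu
        · rw [hself]; exact hxC
        · rw [hupd u (Finset.mem_union_right _ hu)]; exact h2 u hu
      · intro a ha b hb hab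
        rw [Finset.union_insert] at ha hb
        rcases Finset.mem_insert.1 ha with rfl | ha' <;> rcases Finset.mem_insert.1 hb with rfl | hb'
        · rfl
        · rw [hself, hupd b hb'] at hab
          exact absurd hab.symm (hx1 b hb')
        · rw [hself, hupd a ha'] at hab
          exact absurd hab (hx1 a ha')
        · rw [hupd a ha', hupd b hb'] at hab
          exact h3 a ha' b hb' hab
      · intro a ha b hb hab
        rw [Finset.union_insert] at ha hb
        rcases Finset.mem_insert.1 ha with rfl | ha' <;> rcases Finset.mem_insert.1 hb with rfl | hb'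
        · exact absurd hab (L.irrefl)
        · rw [hself, hupd b hb']
          exact (hx2 b hb' hab.symm).symm
        · rw [hself, hupd a ha']
          exact hx2 a ha' hab
        · rw [hupd a ha', hupd b hb']
          exact h4 a ha' b hb' hab
  obtain ⟨φ, h1, h2, h3, h4⟩ := key (Finset.univ \ A) Finset.sdiff_disjoint
  have huniv : ∀ a : W, a ∈ A ∪ (Finset.univ \ A) := by
    intro a
    by_cases h : a ∈ A <;> simp [h]
  refine ⟨φ, fun a b hab => h3 a (huniv a) b (huniv b) hab,
    fun a b hab => h4 a (huniv a) b (huniv b) hab, h1, fun w hw => h2 w ?_⟩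
  simp [hw]

/-- A map that is injective and preserves edges gives a copy. -/
theorem isContained_of_map {W V : Type} (L : SimpleGraph W) (G : SimpleGraph V) (φ : W → V)
    (hi : Function.Injective φ) (ha : ∀ a b, L.Adj a b → G.Adj (φ a) (φ b)) : L ⊑ G :=
  ⟨⟨⟨φ, fun {a b} hab => ha a b hab⟩, hi⟩⟩

open scoped Classical in
/-- Greedy embedding. -/
theorem greedy {W V : Type} [Fintype W] [Fintype V]
    (L : SimpleGraph W) (G : SimpleGraph V) (A : Finset W) (φ₀ : W → V)
    (C : W → Finset V) (d : ℕ)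
    (hinj : ∀ a ∈ A, ∀ b ∈ A, φ₀ a = φ₀ b → a = b)
    (hadj : ∀ a ∈ A, ∀ b ∈ A, L.Adj a b → G.Adj (φ₀ a) (φ₀ b))
    (hA : ∀ a ∈ A, ∀ w, w ∉ A → L.Adj a w → #{x ∈ C w | ¬ G.Adj (φ₀ a) x} ≤ d)
    (hC : ∀ w, w ∉ A → ∀ w', w' ∉ A → L.Adj w w' → ∀ x ∈ C w, #{y ∈ C w' | ¬ G.Adj x y} ≤ d)
    (hs : ∀ w, w ∉ A → Fintype.card W * (d + 1) ≤ #(C w)) : L ⊑ G := by
  obtain ⟨φ, h1, h2, -, -⟩ := greedy_choice L G A φ₀ C d hinj hadj hA hC hs
  exact isContained_of_map L G φ h1 h2

end Pool.Agent.H32.Tight
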