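import Mathlib

/-!
# Edge counts and the Turán number
-/

namespace Pool.Agent.H32.Tight

open Finset SimpleGraph

/-- Number of edges of a graph, instance free. -/
noncomputable def ec {V : Type} (G : SimpleGraph V) : ℕ := Nat.card G.edgeSet

theorem ec_eq {V : Type} (G : SimpleGraph V) [Fintype G.edgeSet] : ec G = #G.edgeFinset := by
  rw [ec, Nat.card_eq_fintype_card, edgeFinset_card]

/-- Number of edges of the Turán graph. -/
noncomputable def tur (k n : ℕ) : ℕ := ec (turanGraph n k)

open scoped Classical in
theorem two_mul_ec {V : Type} [Fintype V] (G : SimpleGraph V) :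
    2 * ec G = ∑ v, #{w | G.Adj v w} := by
  rw [ec_eq, ← sum_degrees_eq_twice_card_edges]
  refine Finset.sum_congr rfl fun v _ => ?_
  rw [degree, neighborFinset_eq_filter]

theorem card_mod_eq (k n : ℕ) (hk : 0 < k) : #{w ∈ range n | n % k = w % k} = n / k := by
  have h1 := Nat.count_modEq_card n hk n
  rw [if_neg (lt_irrefl _), Nat.add_zero, Nat.count_eq_card_filter_range] at h1
  rw [← h1]
  refine congrArg Finset.card (Finset.filter_congr fun w _ => ?_)
  exact ⟨fun b => b.symm, fun b => b.symm⟩

theorem card_mod_ne (k n : ℕ) (hk : 0 < k) :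
    #{w ∈ range n | ¬ n % k = w % k} + n / k = n := by
  have h2 := Finset.card_filter_add_card_filter_not (s := range n) (fun w => n % k = w % k)
  rw [card_mod_eq k n hk, card_range] at h2
  omega

theorem two_mul_tur (k n : ℕ) :
    2 * tur k n = ∑ v ∈ range n, #{w ∈ range n | ¬ v % k = w % k} := by
  classical
  rw [tur, two_mul_ec, ← Fin.sum_univ_eq_sum_range fun v => #{w ∈ range n | ¬ v % k = w % k}]
  refine Finset.sum_congr rfl fun v _ => ?_
  rw [Finset.card_filter, Finset.card_filter,
    ← Fin.sum_univ_eq_sum_range fun w => if ¬ (v : ℕ) % k = w % k then 1 else 0]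
  refine Finset.sum_congr rfl fun w _ => ?_
  simp [turanGraph_adj]

theorem tur_succ (k n : ℕ) (hk : 0 < k) : tur k (n + 1) + n / k = tur k n + n := by
  have h1 := two_mul_tur k (n + 1)
  have h0 := two_mul_tur k n
  have hc := card_mod_ne k n hk
  have hsplit : ∀ v, #{w ∈ range (n + 1) | ¬ v % k = w % k} =
      #{w ∈ range n | ¬ v % k = w % k} + if ¬ v % k = n % k then 1 else 0 := by
    intro v
    rw [Finset.card_filter, Finset.sum_range_succ, ← Finset.card_filter]
  rw [Finset.sum_range_succ] at h1
  simp only [hsplit] at h1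
  rw [Finset.sum_add_distrib, ← h0, if_neg (by simp : ¬ ¬ True)] at h1
  have h2 : ∑ v ∈ range n, (if ¬ v % k = n % k then 1 else 0) = #{w ∈ range n | ¬ n % k = w % k} := by
    rw [Finset.card_filter]
    refine Finset.sum_congr rfl fun v _ => ?_
    congr 1
    exact propext ⟨fun h h' => h h'.symm, fun h h' => h h'.symm⟩
  rw [h2] at h1
  omega

theorem tur_zero (k : ℕ) : tur k 0 = 0 := by
  have := two_mul_tur k 0
  simpa using this

/-- A graph with a proper colouring in `k` colours has at most `tur k n` edges. -/
theorem ec_le_tur {V : Type} [Fintype V] (G : SimpleGraph V) (k : ℕ) (c : V → Fin k)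
    (hc : ∀ a b, G.Adj a b → c a ≠ c b) : ec G ≤ tur k (Fintype.card V) := by
  classical
  have hcol : G.Colorable k := ⟨Coloring.mk c (fun {a b} h => hc a b h)⟩
  have hcf : G.CliqueFree (k + 1) := hcol.cliqueFree (Nat.lt_succ_self k)
  have h := hcf.card_edgeFinset_le
  simp only at h
  rw [← card_edgeFinset_turanGraph] at h
  rw [ec_eq, tur, ec_eq]
  convert h

open scoped Classical in
theorem ec_induce_compl {V : Type} [Fintype V] (G : SimpleGraph V) (x : V) :
    ec (G.induce {x}ᶜ) + #{w | G.Adj x w} = ec G := by
  have h1 := card_edgeFinset_induce_compl_singleton G x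
  rw [card_edgeFinset_deleteIncidenceSet] at h1
  have h2 : G.degree x ≤ #G.edgeFinset := by
    rw [← card_incidenceFinset_eq_degree]
    exact Finset.card_le_card (G.incidenceFinset_subset x)
  have h3 : G.degree x = #{w | G.Adj x w} := by
    rw [degree, neighborFinset_eq_filter]
  rw [ec_eq, ec_eq, ← h3]
  omega

end Pool.Agent.H32.Tight
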