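import Mathlib
import Pool.Agent.H32.Tight.Greedy
import Pool.Agent.H32.Tight.Turan

/-!
# Complete multipartite blocks from the minimum degree
-/

namespace Pool.Agent.H32.Tight

open Finset SimpleGraph

open scoped Classical in
theorem exists_blocks (k s : ℕ) (hk : 2 ≤ k) : ∃ M : ℕ, ∀ (V : Type) [Fintype V]
    (G : SimpleGraph V), M ≤ Fintype.card V →
    (∀ v, #{x | ¬ G.Adj v x} ≤ Fintype.card V / k + 1) →
    ∃ S : Fin k → Finset V, (∀ i, #(S i) = s) ∧
      ∀ i j, i ≠ j → ∀ x ∈ S i, ∀ y ∈ S j, G.Adj x y := by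
  obtain ⟨r, rfl⟩ : ∃ r, k = r + 1 := ⟨k - 1, by omega⟩
  have hr : 1 ≤ r := by omega
  have hr' : (1 : ℝ) ≤ (r : ℝ) := by exact_mod_cast hr
  obtain ⟨ε, hεdef⟩ : ∃ ε : ℝ, ε = 1 / (2 * r * (r + 1)) := ⟨_, rfl⟩
  have hε : 0 < ε := by rw [hεdef]; positivity
  obtain ⟨N, hN⟩ := Filter.eventually_atTop.1
    (eventually_completeEquipartiteGraph_isContained_of_minDegree hε r s)
  refine ⟨max N (2 * r * (r + 1)), fun V _ G hM hdeg => ?_⟩
  have hN' : N ≤ Fintype.card V := le_trans (le_max_left _ _) hM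
  have hM' : 2 * r * (r + 1) ≤ Fintype.card V := le_trans (le_max_right _ _) hM
  have hpos : 0 < Fintype.card V := lt_of_lt_of_le (by positivity) hM'
  have hne : Nonempty V := Fintype.card_pos_iff.1 hpos
  obtain ⟨m, hm⟩ : ∃ m, Fintype.card V = m := ⟨_, rfl⟩
  have hmin : ((G.overFin hm).minDegree : ℝ) ≥ (1 - 1 / r + ε) * m := by
    rw [← (G.overFinIso hm).minDegree_eq]
    obtain ⟨v, hv⟩ := G.exists_minimal_degree_vertex
    rw [hv]
    have h1 := hdeg v
    have h2 : #{x | ¬ G.Adj v x} + G.degree v = m := by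
      rw [degree, neighborFinset_eq_filter, ← hm, ← Finset.card_univ, add_comm]
      exact Finset.card_filter_add_card_filter_not _
    rw [hm] at h1 hM'
    have h3 : m ≤ m / (r + 1) + 1 + G.degree v := by omega
    have h4 : (m : ℝ) ≤ (m / (r + 1) : ℕ) + 1 + G.degree v := by exact_mod_cast h3
    have h5 : ((m / (r + 1) : ℕ) : ℝ) ≤ (m : ℝ) / ((r + 1 : ℕ) : ℝ) := Nat.cast_div_le
    have h6 : (1 : ℝ) ≤ ε * m := by
      have : (2 * r * (r + 1) : ℝ) ≤ m := by exact_mod_cast hM'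
      rw [hεdef, div_mul_eq_mul_div, one_mul, le_div_iff₀ (by positivity)]
      linarith
    have h7 : (1 : ℝ) / r - 1 / (r + 1) = 2 * ε := by
      rw [hεdef]
      field_simp
      ring
    push_cast at h5
    have h8 : (1 - 1 / (r : ℝ) + ε) * m = m - m / (r + 1) - ε * m := by
      have : (1 : ℝ) / r = 1 / (r + 1) + 2 * ε := by linarith
      rw [this]
      ring
    rw [ge_iff_le, h8]
    linarith
  have hcont := hN m (hm ▸ hN') hmin
  have hcont2 : completeEquipartiteGraph (r + 1) s ⊑ G :=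
    hcont.trans (G.overFinIso hm).symm.isContained
  obtain ⟨f⟩ := hcont2
  refine ⟨fun i => Finset.univ.image fun x : Fin s => f (i, x), ?_, ?_⟩
  · intro i
    rw [Finset.card_image_of_injective _ (fun a b hab => ?_), Finset.card_univ, Fintype.card_fin]
    have := f.injective hab
    exact (Prod.mk.inj this).2
  · intro i j hij x hx y hy
    obtain ⟨a, -, rfl⟩ := Finset.mem_image.1 hx
    obtain ⟨b, -, rfl⟩ := Finset.mem_image.1 hy
    exact f.toHom.map_rel (completeEquipartiteGraph_adj.2 hij)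

end Pool.Agent.H32.Tight
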