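import Mathlib
import Pool.Agent.H32.Tight.Greedy

/-!
# Embeddings through a star in one class
-/

namespace Pool.Agent.H32.Tight

open Finset SimpleGraph

/-- `L` has, for each class `i`, a partition in `k` classes whose only edges inside classes are two
edges at a vertex of class `i`. -/
def StarPat (k : ℕ) {W : Type} (L : SimpleGraph W) : Prop :=
  ∀ i : Fin k, ∃ (c : W → Fin k) (v x₁ x₂ : W), c v = i ∧ x₁ ≠ x₂ ∧ v ≠ x₁ ∧ v ≠ x₂ ∧
    c x₁ = i ∧ c x₂ = i ∧
    ∀ a b, L.Adj a b → c a = c b → (a = v ∧ (b = x₁ ∨ b = x₂)) ∨ (b = v ∧ (a = x₁ ∨ a = x₂))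

open scoped Classical in
theorem star_embed {k : ℕ} (hk : 0 < k) {W : Type} [Fintype W] (L : SimpleGraph W)
    (hstar : StarPat k L) {V : Type} [Fintype V] (G : SimpleGraph V)
    (T : Fin k → Finset V) (u : V) (D : ℕ)
    (hT : ∀ i j, i ≠ j → ∀ x ∈ T i, #{y ∈ T j | ¬ G.Adj x y} ≤ D)
    (hu : ∀ i, Fintype.card W * (D + 1) ≤ #{x ∈ T i | G.Adj u x}) : L ⊑ G := by
  obtain ⟨c, v, x₁, x₂, hv, h12, hv1, hv2, hc1, hc2, hpat⟩ := hstar ⟨0, hk⟩
  refine greedy L G {v} (fun _ => u) (fun w => {x ∈ T (c w) | G.Adj u x}) D ?_ ?_ ?_ ?_ ?_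
  · intro a ha b hb _
    rw [Finset.mem_singleton] at ha hb
    rw [ha, hb]
  · intro a ha b hb hab
    rw [Finset.mem_singleton] at ha hb
    rw [ha, hb] at hab
    exact absurd hab L.irrefl
  · intro a _ w _ _
    rw [Finset.filter_filter]
    have : {x ∈ T (c w) | G.Adj u x ∧ ¬ G.Adj u x} = ∅ := by
      ext x
      simp
    rw [this]
    simp
  · intro w hw w' hw' hadj x hx
    rw [Finset.mem_singleton] at hw hw'
    have hne : c w ≠ c w' := by
      intro hcc
      rcases hpat w w' hadj hcc with ⟨h, -⟩ | ⟨h, -⟩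
      · exact hw h
      · exact hw' h
    refine le_trans (Finset.card_le_card ?_) (hT (c w) (c w') hne x (Finset.mem_filter.1 hx).1)
    intro y hy
    rw [Finset.mem_filter, Finset.mem_filter] at hy
    rw [Finset.mem_filter]
    exact ⟨hy.1.1, hy.2⟩
  · intro w _
    exact hu (c w)

open scoped Classical in
theorem class_embed {k : ℕ} {W : Type} [Fintype W] (L : SimpleGraph W)
    (hstar : StarPat k L) {V : Type} [Fintype V] (G : SimpleGraph V)
    (S : Fin k → Finset V) (q : ℕ) (hS : ∀ i j, i ≠ j → ∀ x ∈ S i, ∀ y ∈ S j, G.Adj x y)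
    (hs : ∀ i, Fintype.card W * (q + 1) ≤ #(S i)) (i : Fin k) (U : Finset V)
    (hU : ∀ x ∈ U, ∀ j, j ≠ i → #{y ∈ S j | ¬ G.Adj x y} ≤ q) (u : V) (hu : u ∈ U)
    (hcard : Fintype.card W ≤ #{x ∈ U | G.Adj u x}) : L ⊑ G := by
  obtain ⟨c, v, x₁, x₂, hv, h12, hv1, hv2, hc1, hc2, hpat⟩ := hstar i
  -- first choose distinct vertices
  obtain ⟨φ, hφi, -, hφv, hφC⟩ := greedy_choice (⊥ : SimpleGraph W) G {v} (fun _ => u)
    (fun _ => {x ∈ U | G.Adj u x}) 0 (by
      intro a ha b hb _
      rw [Finset.mem_singleton] at ha hb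
      rw [ha, hb]) (by simp) (by simp) (by simp) (by
      intro w _
      simpa using hcard)
  have hφv' : φ v = u := hφv v (Finset.mem_singleton_self v)
  have hφN : ∀ w, w ≠ v → φ w ∈ U ∧ G.Adj u (φ w) := by
    intro w hw
    have := hφC w (by rwa [Finset.mem_singleton])
    rwa [Finset.mem_filter] at this
  have hφU : ∀ w, φ w ∈ U := by
    intro w
    by_cases hw : w = v
    · rw [hw, hφv']; exact hu
    · exact (hφN w hw).1
  refine greedy L G {w | c w = i} φ (fun w => S (c w)) q ?_ ?_ ?_ ?_ ?_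
  · intro a _ b _ hab
    exact hφi hab
  · intro a ha b hb hab
    rw [Finset.mem_filter] at ha hb
    rcases hpat a b hab (by rw [ha.2, hb.2]) with ⟨h, h'⟩ | ⟨h, h'⟩
    · have : b ≠ v := by
        rintro rfl
        rw [h] at hab
        exact L.irrefl hab
      rw [h, hφv']
      exact (hφN b this).2
    · have : a ≠ v := by
        rintro rfl
        rw [h] at hab
        exact L.irrefl hab
      rw [h, hφv']
      exact (hφN a this).2.symm
  · intro a _ w hw _
    have hw' : c w ≠ i := by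
      intro h
      apply hw
      simp [h]
    exact hU (φ a) (hφU a) (c w) hw'
  · intro w hw w' hw' hadj x hx
    have hwi : c w ≠ i := by
      intro h
      apply hw
      simp [h]
    have hne : c w ≠ c w' := by
      intro hcc
      rcases hpat w w' hadj hcc with ⟨h, -⟩ | ⟨h, -⟩
      · rw [h] at hwi; exact hwi hv
      · rw [hcc, h] at hwi; exact hwi hv
    have : {y ∈ S (c w') | ¬ G.Adj x y} = ∅ := by
      rw [Finset.filter_eq_empty_iff]
      intro y hy
      rw [not_not]
      exact hS _ _ hne x hx y hy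
    rw [this]
    simp
  · intro w _
    exact hs (c w)

end Pool.Agent.H32.Tight
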