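import Mathlib
import Pool.Agent.H32.Tight.Blocks
import Pool.Agent.H32.Tight.StarSteps

/-!
# A partition in classes with few missing edges between classes
-/

namespace Pool.Agent.H32.Tight

open Finset SimpleGraph

open scoped Classical in
theorem split_card {V : Type} [Fintype V] (G : SimpleGraph V) (u : V) (T : Finset V) :
    #{x ∈ T | G.Adj u x} + #{x ∈ T | ¬ G.Adj u x} = #T :=
  Finset.card_filter_add_card_filter_not _

open scoped Classical in
theorem exists_partition (k : ℕ) (hk : 2 ≤ k) {W : Type} [Fintype W] (L : SimpleGraph W)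
    (hstar : StarPat k L) :
    ∃ M : ℕ, ∀ (V : Type) [Fintype V] (G : SimpleGraph V), M ≤ Fintype.card V →
    (∀ v, #{x | ¬ G.Adj v x} ≤ Fintype.card V / k + 1) → ¬ L ⊑ G →
    ∃ (cl : V → Fin k) (d : ℕ), (∀ u, #{x | cl x ≠ cl u ∧ ¬ G.Adj u x} ≤ d) ∧
      (∀ i, Fintype.card W * (d + 1) ≤ #{x | cl x = i}) := by
  obtain ⟨h, hh⟩ : ∃ h, Fintype.card W = h := ⟨_, rfl⟩
  obtain ⟨c₁, hc₁⟩ : ∃ c₁, c₁ = 1 + h + h * h := ⟨_, rfl⟩
  obtain ⟨K₁, hK₁⟩ : ∃ K₁, K₁ = k * (h + 1) := ⟨_, rfl⟩
  obtain ⟨q, hq⟩ : ∃ q, q = (h + 1) * (2 * k * c₁) := ⟨_, rfl⟩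
  obtain ⟨s, hs⟩ : ∃ s, s = h * (q + 1) := ⟨_, rfl⟩
  obtain ⟨M₁, hM₁⟩ := exists_blocks k s hk
  obtain ⟨C₂, hC₂⟩ : ∃ C₂, C₂ = c₁ * (K₁ + 1 + h) + h * h + h := ⟨_, rfl⟩
  refine ⟨M₁ + k * s + 2 * k * C₂, fun V _ G hM hdeg hfree => ?_⟩
  obtain ⟨m, hm⟩ : ∃ m, Fintype.card V = m := ⟨_, rfl⟩
  obtain ⟨Q, hQ⟩ : ∃ Q, m / k = Q := ⟨_, rfl⟩
  have hk0 : 0 < k := by omega
  have hQm : k * Q ≤ m := by rw [← hQ]; exact Nat.mul_div_le m k
  have hQm' : m < k * Q + k := by
    rw [← hQ]
    have := Nat.lt_div_mul_add (a := m) hk0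
    rw [mul_comm (m / k) k] at this
    exact this
  rw [hm] at hM hdeg
  rw [hQ] at hdeg
  obtain ⟨S, hScard, hSadj⟩ := hM₁ V G (by rw [hm]; omega) (by rw [hm, hQ]; exact hdeg)
  -- step 1: every vertex has few neighbours in some block
  have step1 : ∀ u, ∃ i, #{x ∈ S i | G.Adj u x} < h := by
    intro u
    by_contra hcon
    push Not at hcon
    apply hfree
    refine star_embed hk0 L hstar G S u 0 ?_ ?_
    · intro i j hij x hx
      rw [Nat.le_zero, Finset.card_eq_zero, Finset.filter_eq_empty_iff]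
      intro y hy
      rw [not_not]
      exact hSadj i j hij x hx y hy
    · intro i
      rw [hh]
      simpa using hcon i
  choose ι hι using step1
  -- bad vertices
  obtain ⟨B, hB⟩ : ∃ B : Finset V,
      B = Finset.univ.filter (fun u => ∃ j, j ≠ ι u ∧ q < #{x ∈ S j | ¬ G.Adj u x}) :=
    ⟨_, rfl⟩
  have hgood : ∀ u, u ∉ B → ∀ j, j ≠ ι u → #{x ∈ S j | ¬ G.Adj u x} ≤ q := by
    intro u hu j hj
    by_contra hcon
    push Not at hcon
    apply hu
    rw [hB, Finset.mem_filter]
    exact ⟨Finset.mem_univ _, j, hj, hcon⟩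
  -- double counting
  have hdc : ∑ u, ∑ j, #{x ∈ S j | ¬ G.Adj u x} ≤ k * (s * (Q + 1)) := by
    rw [Finset.sum_comm]
    calc ∑ j, ∑ u, #{x ∈ S j | ¬ G.Adj u x}
        = ∑ j, ∑ x ∈ S j, #{u | ¬ G.Adj x u} := by
          refine Finset.sum_congr rfl fun j _ => ?_
          simp only [Finset.card_filter]
          rw [Finset.sum_comm]
          simp only [G.adj_comm]
      _ ≤ ∑ j : Fin k, s * (Q + 1) := by
          refine Finset.sum_le_sum fun j _ => ?_
          calc ∑ x ∈ S j, #{u | ¬ G.Adj x u} ≤ ∑ x ∈ S j, (Q + 1) :=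
                Finset.sum_le_sum fun x _ => hdeg x
            _ = s * (Q + 1) := by rw [Finset.sum_const, hScard, smul_eq_mul]
      _ = k * (s * (Q + 1)) := by
          rw [Finset.sum_const, Finset.card_univ, Fintype.card_fin, smul_eq_mul]
  have hlow : ∀ u, s + (if u ∈ B then q + 1 else 0) ≤ (∑ j, #{x ∈ S j | ¬ G.Adj u x}) + h := by
    intro u
    have h1 := split_card G u (S (ι u))
    rw [hScard] at h1
    have h2 := hι u
    split_ifs with huB
    · rw [hB, Finset.mem_filter] at huB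
      obtain ⟨-, j, hj, hjq⟩ := huB
      have h3 : #{x ∈ S (ι u) | ¬ G.Adj u x} + #{x ∈ S j | ¬ G.Adj u x} ≤
          ∑ j, #{x ∈ S j | ¬ G.Adj u x} := by
        rw [← Finset.sum_pair (f := fun j => #{x ∈ S j | ¬ G.Adj u x}) hj.symm]
        exact Finset.sum_le_sum_of_subset (Finset.subset_univ _)
      omega
    · have h3 : #{x ∈ S (ι u) | ¬ G.Adj u x} ≤ ∑ j, #{x ∈ S j | ¬ G.Adj u x} :=
        Finset.single_le_sum (f := fun j => #{x ∈ S j | ¬ G.Adj u x})
          (fun _ _ => Nat.zero_le _) (Finset.mem_univ (ι u))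
      omega
  have hsumlow : m * s + #B * (q + 1) ≤ k * (s * (Q + 1)) + m * h := by
    have h1 := Finset.sum_le_sum fun u (_ : u ∈ (Finset.univ : Finset V)) => hlow u
    rw [Finset.sum_add_distrib, Finset.sum_add_distrib, Finset.sum_const, Finset.sum_const,
      Finset.card_univ, hm, smul_eq_mul, smul_eq_mul, ← Finset.sum_filter, Finset.sum_const,
      smul_eq_mul] at h1
    have h2 : #{u | u ∈ B} = #B := by
      congr 1
      ext u
      simp
    rw [h2] at h1
    omega
  have hBsmall : 2 * k * c₁ * #B ≤ m := by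
    have h1 : k * (s * (Q + 1)) ≤ m * s + k * s := by
      calc k * (s * (Q + 1)) = (k * Q) * s + k * s := by ring
        _ ≤ m * s + k * s := by gcongr
    have h2 : #B * (q + 1) ≤ k * s + m * h := by omega
    have h3 : k * s ≤ m := by omega
    have h4 : #B * q ≤ m * (h + 1) := by
      calc #B * q ≤ #B * (q + 1) := by gcongr; omega
        _ ≤ k * s + m * h := h2
        _ ≤ m + m * h := by omega
        _ = m * (h + 1) := by ring
    rw [hq] at h4
    have h5 : (2 * k * c₁ * #B) * (h + 1) ≤ m * (h + 1) := by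
      calc (2 * k * c₁ * #B) * (h + 1) = #B * ((h + 1) * (2 * k * c₁)) := by ring
        _ ≤ m * (h + 1) := h4
    exact Nat.le_of_mul_le_mul_right h5 (Nat.succ_pos h)
  -- good classes
  obtain ⟨U, hU⟩ : ∃ U : Fin k → Finset V,
      U = fun i => Finset.univ.filter (fun u => u ∉ B ∧ ι u = i) := ⟨_, rfl⟩
  have hUmem : ∀ i u, u ∈ U i ↔ u ∉ B ∧ ι u = i := by
    intro i u
    rw [hU]
    simp
  have step2 : ∀ i, ∀ u ∈ U i, #{x ∈ U i | G.Adj u x} < h := by
    intro i u hu
    by_contra hcon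
    push Not at hcon
    apply hfree
    refine class_embed L hstar G S q hSadj ?_ i (U i) ?_ u hu ?_
    · intro i
      rw [hScard, hs, hh]
    · intro x hx j hj
      obtain ⟨hx1, hx2⟩ := (hUmem i x).1 hx
      exact hgood x hx1 j (by rw [hx2]; exact hj)
    · rw [hh]
      exact hcon
  have hUle : ∀ i, #(U i) ≤ Q + 1 + h := by
    intro i
    rcases (U i).eq_empty_or_nonempty with he | ⟨u, hu⟩
    · rw [he]; simp
    · have h1 := split_card G u (U i)
      have h2 := step2 i u hu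
      have h3 : #{x ∈ U i | ¬ G.Adj u x} ≤ #{x | ¬ G.Adj u x} :=
        Finset.card_le_card (Finset.filter_subset_filter _ (Finset.subset_univ _))
      have h4 := hdeg u
      omega
  have hUsum : ∑ i, #(U i) + #B = m := by
    have h1 : ∑ i, #(U i) = #(Finset.univ.filter fun u : V => u ∉ B) := by
      rw [Finset.card_eq_sum_card_fiberwise (f := ι) (t := Finset.univ)
        (fun x _ => Finset.mem_coe.2 (Finset.mem_univ _))]
      refine Finset.sum_congr rfl fun i _ => ?_
      rw [hU, Finset.filter_filter]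
    have h2 : (Finset.univ.filter fun u : V => u ∉ B) = Bᶜ := by
      ext u
      simp
    rw [h1, h2, Finset.card_compl, hm]
    have : #B ≤ m := by rw [← hm]; exact Finset.card_le_univ B
    omega
  have hUge : ∀ i, Q ≤ #(U i) + #B + K₁ := by
    intro i
    have h1 : ∑ j, #(U j) ≤ #(U i) + (k - 1) * (Q + 1 + h) := by
      rw [← Finset.add_sum_erase _ _ (Finset.mem_univ i)]
      gcongr
      calc ∑ j ∈ Finset.univ.erase i, #(U j) ≤ ∑ j ∈ Finset.univ.erase i, (Q + 1 + h) :=
            Finset.sum_le_sum fun j _ => hUle j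
        _ = (k - 1) * (Q + 1 + h) := by
            rw [Finset.sum_const, Finset.card_erase_of_mem (Finset.mem_univ i),
              Finset.card_univ, Fintype.card_fin, smul_eq_mul]
    obtain ⟨r, hr⟩ : ∃ r, k - 1 = r := ⟨_, rfl⟩
    have hkr : k = r + 1 := by omega
    rw [hr] at h1
    have h2 : r * (Q + 1 + h) = r * Q + r * (h + 1) := by ring
    have h3 : k * Q = r * Q + Q := by rw [hkr]; ring
    have h4 : K₁ = r * (h + 1) + (h + 1) := by rw [hK₁, hkr]; ring
    omega
  -- constants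
  obtain ⟨D, hD⟩ : ∃ D, D = #B + K₁ + 1 + h := ⟨_, rfl⟩
  obtain ⟨d, hd⟩ : ∃ d, d = D + h * (D + 1) := ⟨_, rfl⟩
  have hbig : #B + K₁ + h * (d + 1) ≤ Q := by
    have h1 : (#B + K₁ + h * (d + 1)) * k ≤ m := by
      have h2 : #B + K₁ + h * (d + 1) ≤ c₁ * #B + C₂ := by
        rw [hd, hD, hc₁, hC₂, hc₁]
        nlinarith [Nat.zero_le (#B), Nat.zero_le h, Nat.zero_le K₁]
      have h3 : 2 * k * C₂ ≤ m := by omega
      have h4 : (c₁ * #B + C₂) * k * 2 ≤ m * 2 := by
        calc (c₁ * #B + C₂) * k * 2 = 2 * k * c₁ * #B + 2 * k * C₂ := by ring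
          _ ≤ m + m := by omega
          _ = m * 2 := by ring
      have h5 : (c₁ * #B + C₂) * k ≤ m := by omega
      exact le_trans (Nat.mul_le_mul_right k h2) h5
    rw [← hQ]
    exact (Nat.le_div_iff_mul_le hk0).2 h1
  have step3 : ∀ i, ∀ u ∈ U i, #{x | x ∉ U i ∧ ¬ G.Adj u x} ≤ D := by
    intro i u hu
    have h1 := split_card G u (U i)
    have h2 := step2 i u hu
    have h3 := hdeg u
    have h4 : #{x ∈ U i | ¬ G.Adj u x} + #{x | x ∉ U i ∧ ¬ G.Adj u x} = #{x | ¬ G.Adj u x} := by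
      rw [← Finset.card_filter_add_card_filter_not (s := {x | ¬ G.Adj u x}) (fun x => x ∈ U i),
        Finset.filter_filter, Finset.filter_filter]
      congr 2
      · ext x; simp [and_comm]
      · ext x; simp [and_comm]
    have h5 := hUge i
    omega
  have step4 : ∀ w, ∃ i, #{x ∈ U i | G.Adj w x} < h * (D + 1) := by
    intro w
    by_contra hcon
    push Not at hcon
    apply hfree
    refine star_embed hk0 L hstar G U w D ?_ ?_
    · intro i j hij x hx
      refine le_trans (Finset.card_le_card ?_) (step3 i x hx)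
      intro y hy
      rw [Finset.mem_filter] at hy ⊢
      refine ⟨Finset.mem_univ _, ?_, hy.2⟩
      intro hyi
      exact hij (((hUmem i y).1 hyi).2.symm.trans ((hUmem j y).1 hy.1).2)
    · intro i
      rw [hh]
      exact hcon i
  choose κ hκ using step4
  obtain ⟨cl, hcl⟩ : ∃ cl : V → Fin k, cl = fun u => if u ∈ B then κ u else ι u := ⟨_, rfl⟩
  have hclU : ∀ i u, u ∈ U i → cl u = i := by
    intro i u hu
    obtain ⟨h1, h2⟩ := (hUmem i u).1 hu
    rw [hcl]
    simp only
    rw [if_neg h1, h2]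
  refine ⟨cl, d, ?_, ?_⟩
  · intro u
    have h0 : #{x | cl x ≠ cl u ∧ ¬ G.Adj u x} ≤ #{x | x ∉ U (cl u) ∧ ¬ G.Adj u x} := by
      refine Finset.card_le_card ?_
      intro x hx
      rw [Finset.mem_filter] at hx ⊢
      exact ⟨hx.1, fun hxU => hx.2.1 (hclU _ _ hxU), hx.2.2⟩
    refine h0.trans ?_
    by_cases huB : u ∈ B
    · have hclu : cl u = κ u := by rw [hcl]; simp only; rw [if_pos huB]
      rw [hclu]
      have h1 := split_card G u (U (κ u))
      have h2 := hκ u
      have h3 := hdeg u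
      have h4 : #{x ∈ U (κ u) | ¬ G.Adj u x} + #{x | x ∉ U (κ u) ∧ ¬ G.Adj u x} =
          #{x | ¬ G.Adj u x} := by
        rw [← Finset.card_filter_add_card_filter_not (s := {x | ¬ G.Adj u x})
          (fun x => x ∈ U (κ u)), Finset.filter_filter, Finset.filter_filter]
        congr 2
        · ext x; simp [and_comm]
        · ext x; simp [and_comm]
      have h5 := hUge (κ u)
      omega
    · have hclu : cl u = ι u := by rw [hcl]; simp only; rw [if_neg huB]
      rw [hclu]
      have := step3 (ι u) u ((hUmem _ _).2 ⟨huB, rfl⟩)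
      omega
  · intro i
    have h1 : #(U i) ≤ #{x | cl x = i} := by
      refine Finset.card_le_card ?_
      intro x hx
      rw [Finset.mem_filter]
      exact ⟨Finset.mem_univ _, hclU i x hx⟩
    have h2 := hUge i
    rw [hh]
    omega

end Pool.Agent.H32.Tight
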