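import Mathlib
import Pool.Agent.H32.Tight.Partition

/-!
# The upper bound for the extremal number
-/

namespace Pool.Agent.H32.Tight

open Finset SimpleGraph

/-- For each class `i`, a partition of `L` whose edges inside classes form part of a matching of
`μ + 1` pairs of class `i`. -/
def MatchPat (k μ : ℕ) {W : Type} (L : SimpleGraph W) : Prop :=
  ∀ i : Fin k, ∃ (c : W → Fin k) (e : Fin (μ + 1) × Bool → W), Function.Injective e ∧
    (∀ p, c (e p) = i) ∧
    ∀ a b, L.Adj a b → c a = c b → ∃ j β, a = e (j, β) ∧ b = e (j, !β)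

/-- A partition of `L` whose edges inside classes are among `μ` disjoint pairs in each class,
and these pairs cover all vertices. -/
def TightPat (k μ : ℕ) {W : Type} (L : SimpleGraph W) : Prop :=
  ∃ (c : W → Fin k) (e : (Fin k × Fin μ) × Bool ≃ W), (∀ p, c (e p) = p.1.1) ∧
    ∀ a b, L.Adj a b → c a = c b → ∃ j β, a = e (j, β) ∧ b = e (j, !β)

open scoped Classical in
theorem unique_nbr {k : ℕ} {W : Type} [Fintype W] (L : SimpleGraph W)
    (hstar : StarPat k L) {V : Type} [Fintype V] (G : SimpleGraph V)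
    (cl : V → Fin k) (d : ℕ) (hd : ∀ u, #{x | cl x ≠ cl u ∧ ¬ G.Adj u x} ≤ d)
    (hbig : ∀ i, Fintype.card W * (d + 1) ≤ #{x | cl x = i}) (hfree : ¬ L ⊑ G) :
    ∀ u y z, G.Adj u y → G.Adj u z → cl y = cl u → cl z = cl u → y = z := by
  intro u y z huy huz hy hz
  by_contra hyz
  apply hfree
  obtain ⟨c, v, x₁, x₂, hv, h12, hv1, hv2, hc1, hc2, hpat⟩ := hstar (cl u)
  obtain ⟨φ₀, hφ₀⟩ : ∃ φ₀ : W → V, φ₀ = fun w => if w = v then u else if w = x₁ then y else z :=
    ⟨_, rfl⟩
  have e1 : φ₀ v = u := by rw [hφ₀]; simp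
  have e2 : φ₀ x₁ = y := by rw [hφ₀]; simp [hv1.symm]
  have e3 : φ₀ x₂ = z := by rw [hφ₀]; simp [hv2.symm, h12.symm]
  have hcA : ∀ a ∈ ({v, x₁, x₂} : Finset W), c a = cl u ∧ cl (φ₀ a) = cl u := by
    intro a ha
    simp only [Finset.mem_insert, Finset.mem_singleton] at ha
    rcases ha with rfl | rfl | rfl
    · rw [e1]; exact ⟨hv, rfl⟩
    · rw [e2]; exact ⟨hc1, hy⟩
    · rw [e3]; exact ⟨hc2, hz⟩
  refine greedy L G {v, x₁, x₂} φ₀ (fun w => {x | cl x = c w}) d ?_ ?_ ?_ ?_ ?_
  · intro a ha b hb hab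
    simp only [Finset.mem_insert, Finset.mem_singleton] at ha hb
    rcases ha with rfl | rfl | rfl <;> rcases hb with rfl | rfl | rfl <;>
      simp only [e1, e2, e3] at hab
    · rfl
    · exact absurd hab huy.ne
    · exact absurd hab huz.ne
    · exact absurd hab.symm huy.ne
    · rfl
    · exact absurd hab hyz
    · exact absurd hab.symm huz.ne
    · exact absurd hab.symm hyz
    · rfl
  · intro a ha b hb hab
    have := hpat a b hab (by rw [(hcA a ha).1, (hcA b hb).1])
    rcases this with ⟨rfl, rfl | rfl⟩ | ⟨rfl, rfl | rfl⟩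
    · rw [e1, e2]; exact huy
    · rw [e1, e3]; exact huz
    · rw [e1, e2]; exact huy.symm
    · rw [e1, e3]; exact huz.symm
  · intro a ha w hw haw
    have hcw : c w ≠ cl u := by
      intro hcw
      have := hpat a w haw (by rw [(hcA a ha).1, hcw])
      apply hw
      simp only [Finset.mem_insert, Finset.mem_singleton]
      tauto
    refine le_trans (Finset.card_le_card ?_) (hd (φ₀ a))
    intro x hx
    rw [Finset.mem_filter, Finset.mem_filter] at hx
    rw [Finset.mem_filter]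
    refine ⟨Finset.mem_univ _, ?_, hx.2⟩
    rw [hx.1.2, (hcA a ha).2]
    exact hcw
  · intro w hw w' hw' hadj x hx
    have hne : c w ≠ c w' := by
      intro hcc
      have := hpat w w' hadj hcc
      apply hw
      simp only [Finset.mem_insert, Finset.mem_singleton]
      rcases this with h | h
      · left; exact h.1
      · right; exact h.2
    rw [Finset.mem_filter] at hx
    refine le_trans (Finset.card_le_card ?_) (hd x)
    intro y hy
    rw [Finset.mem_filter, Finset.mem_filter] at hy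
    rw [Finset.mem_filter]
    refine ⟨Finset.mem_univ _, ?_, hy.2⟩
    rw [hy.1.2, hx.2]
    exact hne.symm
  · intro w _
    exact hbig (c w)

open scoped Classical in
theorem match_embed {k μ : ℕ} {W : Type} [Fintype W] (L : SimpleGraph W)
    (hmatch : MatchPat k μ L) {V : Type} [Fintype V] (G : SimpleGraph V)
    (cl : V → Fin k) (d : ℕ) (hd : ∀ u, #{x | cl x ≠ cl u ∧ ¬ G.Adj u x} ≤ d)
    (hbig : ∀ i, Fintype.card W * (d + 1) ≤ #{x | cl x = i}) (i : Fin k)
    (φ : Fin (μ + 1) × Bool → V) (hφ : Function.Injective φ) (hcl : ∀ p, cl (φ p) = i)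
    (hadj : ∀ j, G.Adj (φ (j, false)) (φ (j, true))) : L ⊑ G := by
  obtain ⟨c, e, he, hc, hpat⟩ := hmatch i
  obtain ⟨φ₀, hφ₀⟩ : ∃ φ₀ : W → V, φ₀ = Function.extend e φ (fun _ => φ (0, false)) := ⟨_, rfl⟩
  have h0 : ∀ p, φ₀ (e p) = φ p := by
    intro p
    rw [hφ₀, he.extend_apply]
  have hadj' : ∀ j β, G.Adj (φ (j, β)) (φ (j, !β)) := by
    intro j β
    cases β
    · exact hadj j
    · exact (hadj j).symm
  refine greedy L G (Finset.univ.image e) φ₀ (fun w => {x | cl x = c w}) d ?_ ?_ ?_ ?_ ?_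
  · intro a ha b hb hab
    obtain ⟨p, -, rfl⟩ := Finset.mem_image.1 ha
    obtain ⟨p', -, rfl⟩ := Finset.mem_image.1 hb
    rw [h0, h0] at hab
    rw [hφ hab]
  · intro a ha b hb hab
    obtain ⟨p, -, rfl⟩ := Finset.mem_image.1 ha
    obtain ⟨p', -, rfl⟩ := Finset.mem_image.1 hb
    obtain ⟨j, β, h1, h2⟩ := hpat _ _ hab (by rw [hc, hc])
    rw [h1, h2, h0, h0]
    exact hadj' j β
  · intro a ha w hw haw
    obtain ⟨p, -, rfl⟩ := Finset.mem_image.1 ha
    have hcw : c w ≠ i := by
      intro hcw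
      obtain ⟨j, β, h1, h2⟩ := hpat _ _ haw (by rw [hc, hcw])
      apply hw
      rw [h2]
      exact Finset.mem_image_of_mem _ (Finset.mem_univ _)
    refine le_trans (Finset.card_le_card ?_) (hd (φ₀ (e p)))
    intro x hx
    rw [Finset.mem_filter, Finset.mem_filter] at hx
    rw [Finset.mem_filter]
    refine ⟨Finset.mem_univ _, ?_, hx.2⟩
    rw [hx.1.2, h0, hcl]
    exact hcw
  · intro w hw w' hw' hadj x hx
    have hne : c w ≠ c w' := by
      intro hcc
      obtain ⟨j, β, h1, h2⟩ := hpat _ _ hadj hcc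
      apply hw
      rw [h1]
      exact Finset.mem_image_of_mem _ (Finset.mem_univ _)
    rw [Finset.mem_filter] at hx
    refine le_trans (Finset.card_le_card ?_) (hd x)
    intro y hy
    rw [Finset.mem_filter, Finset.mem_filter] at hy
    rw [Finset.mem_filter]
    refine ⟨Finset.mem_univ _, ?_, hy.2⟩
    rw [hy.1.2, hx.2]
    exact hne.symm
  · intro w _
    exact hbig (c w)

/-- Choosing end points of disjoint edges inside classes. -/
theorem pair_choice {k : ℕ} {V J : Type} (G : SimpleGraph V) (cl : V → Fin k)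
    (huniq : ∀ u y z, G.Adj u y → G.Adj u z → cl y = cl u → cl z = cl u → y = z)
    (κ : J → Fin k) (g : J → Sym2 V) (hg : Function.Injective g)
    (he : ∀ j, g j ∈ G.edgeSet) (hc : ∀ j, ∀ x ∈ g j, cl x = κ j) :
    ∃ φ : J × Bool → V, Function.Injective φ ∧ (∀ j, G.Adj (φ (j, false)) (φ (j, true))) ∧
      ∀ p, cl (φ p) = κ p.1 := by
  obtain ⟨φ, hφ⟩ : ∃ φ : J × Bool → V,
      φ = fun p => if p.2 then (Quot.out (g p.1)).2 else (Quot.out (g p.1)).1 := ⟨_, rfl⟩
  have h1 : ∀ j, s(φ (j, false), φ (j, true)) = g j := by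
    intro j
    rw [hφ]
    exact Quot.out_eq (g j)
  have h2 : ∀ j, G.Adj (φ (j, false)) (φ (j, true)) := by
    intro j
    rw [← mem_edgeSet, h1]
    exact he j
  have h3 : ∀ p, cl (φ p) = κ p.1 := by
    rintro ⟨j, β⟩
    apply hc j
    rw [← h1 j]
    cases β
    · exact Sym2.mem_mk_left _ _
    · exact Sym2.mem_mk_right _ _
  have h4 : ∀ j β, G.Adj (φ (j, β)) (φ (j, !β)) := by
    intro j β
    cases β
    · exact h2 j
    · exact (h2 j).symm
  have h5 : ∀ j β, s(φ (j, β), φ (j, !β)) = g j := by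
    intro j β
    cases β
    · exact h1 j
    · rw [← h1 j]; exact Sym2.eq_swap
  refine ⟨φ, ?_, h2, h3⟩
  rintro ⟨j, β⟩ ⟨j', β'⟩ hab
  have hpartner : φ (j, !β) = φ (j', !β') := by
    refine huniq (φ (j, β)) _ _ (h4 j β) ?_ ?_ ?_
    · rw [hab]; exact h4 j' β'
    · rw [h3, h3]
    · rw [hab, h3, h3]
  have hj : j = j' := by
    apply hg
    rw [← h5 j β, ← h5 j' β', hab, hpartner]
  subst hj
  have hβ : β = β' := by
    by_contra hne
    have : β' = !β := by
      cases β <;> cases β' <;> simp_all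
    rw [this] at hab
    exact (h4 j β).ne hab
  rw [hβ]

end Pool.Agent.H32.Tight
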