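import Mathlib
import Pool.Agent.H32.Tight.Upper

/-!
# Every graph with many edges contains `L`
-/

namespace Pool.Agent.H32.Tight

open Finset SimpleGraph

open scoped Classical in
theorem min_degree_case (k μ : ℕ) (hk : 2 ≤ k) {W : Type} [Fintype W] (L : SimpleGraph W)
    (hstar : StarPat k L) (hmatch : MatchPat k μ L) (htight : TightPat k μ L) :
    ∃ M : ℕ, ∀ (V : Type) [Fintype V] (G : SimpleGraph V), M ≤ Fintype.card V →
    (∀ v, #{x | ¬ G.Adj v x} ≤ Fintype.card V / k + 1) →
    tur k (Fintype.card V) + k * μ ≤ ec G → L ⊑ G := by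
  obtain ⟨M, hM⟩ := exists_partition k hk L hstar
  refine ⟨M, fun V _ G hV hdeg hedge => ?_⟩
  by_contra hfree
  obtain ⟨cl, d, hd, hbig⟩ := hM V G hV hdeg hfree
  have huniq := unique_nbr L hstar G cl d hd hbig hfree
  -- edges inside class `i`
  obtain ⟨E, hE⟩ : ∃ E : Fin k → Finset (Sym2 V),
      E = fun i => G.edgeFinset.filter (fun s => ∀ x ∈ s, cl x = i) := ⟨_, rfl⟩
  have hEmem : ∀ i s, s ∈ E i ↔ s ∈ G.edgeSet ∧ ∀ x ∈ s, cl x = i := by
    intro i s
    rw [hE]
    simp
  have hEle : ∀ i, #(E i) ≤ μ := by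
    intro i
    by_contra hcon
    push Not at hcon
    obtain ⟨T, hT1, hT2⟩ := Finset.exists_subset_card_eq (s := E i) (n := μ + 1) hcon
    have hg := T.equivFinOfCardEq hT2
    obtain ⟨φ, hφ, hφadj, hφcl⟩ := pair_choice (J := Fin (μ + 1)) G cl huniq (fun _ => i)
      (fun j => (hg.symm j : Sym2 V)) (fun a b hab => hg.symm.injective (Subtype.ext hab))
      (fun j => ((hEmem i _).1 (hT1 (hg.symm j).2)).1)
      (fun j => ((hEmem i _).1 (hT1 (hg.symm j).2)).2)
    exact hfree (match_embed L hmatch G cl d hd hbig i φ hφ hφcl hφadj)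
  -- the crossing graph
  obtain ⟨H, hH⟩ : ∃ H : SimpleGraph V, H = G ⊓ SimpleGraph.comap cl ⊤ := ⟨_, rfl⟩
  have hHadj : ∀ a b, H.Adj a b ↔ G.Adj a b ∧ cl a ≠ cl b := by
    intro a b
    rw [hH]
    simp
  obtain ⟨K, hK⟩ : ∃ K : SimpleGraph V, K = SimpleGraph.comap cl ⊤ := ⟨_, rfl⟩
  have hKadj : ∀ a b, K.Adj a b ↔ cl a ≠ cl b := by
    intro a b
    rw [hK]
    simp
  have hKle : ec K ≤ tur k (Fintype.card V) := ec_le_tur K k cl fun a b h => (hKadj a b).1 h
  have hHle : ec H ≤ ec K := by
    rw [ec_eq, ec_eq]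
    exact Finset.card_le_card (edgeFinset_mono (by rw [hH, hK]; exact inf_le_right))
  have hcount : ec G ≤ ec H + ∑ i, #(E i) := by
    rw [ec_eq, ec_eq]
    have hsub : G.edgeFinset ⊆ H.edgeFinset ∪ Finset.univ.biUnion E := by
      intro s
      induction s using Sym2.ind with
      | h a b =>
        intro hs
        rw [mem_edgeFinset, mem_edgeSet] at hs
        rw [Finset.mem_union]
        by_cases hab : cl a = cl b
        · right
          rw [Finset.mem_biUnion]
          refine ⟨cl a, Finset.mem_univ _, (hEmem _ _).2 ⟨hs, ?_⟩⟩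
          intro x hx
          rcases Sym2.mem_iff.1 hx with rfl | rfl
          · rfl
          · exact hab.symm
        · left
          rw [mem_edgeFinset, mem_edgeSet, hHadj]
          exact ⟨hs, hab⟩
    calc #G.edgeFinset ≤ #(H.edgeFinset ∪ Finset.univ.biUnion E) := Finset.card_le_card hsub
      _ ≤ #H.edgeFinset + #(Finset.univ.biUnion E) := Finset.card_union_le _ _
      _ ≤ #H.edgeFinset + ∑ i, #(E i) := by gcongr; exact Finset.card_biUnion_le
  have hsumle : ∑ i, #(E i) ≤ k * μ := by
    calc ∑ i, #(E i) ≤ ∑ i : Fin k, μ := Finset.sum_le_sum fun i _ => hEle i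
      _ = k * μ := by rw [Finset.sum_const, Finset.card_univ, Fintype.card_fin, smul_eq_mul]
  have hHeq : ec K ≤ ec H := by omega
  have hsumeq : k * μ ≤ ∑ i, #(E i) := by omega
  have hEeq : ∀ i, #(E i) = μ := by
    have h1 : ∑ i, #(E i) = ∑ i : Fin k, μ := by
      rw [Finset.sum_const, Finset.card_univ, Fintype.card_fin, smul_eq_mul]
      omega
    have h2 := (Finset.sum_eq_sum_iff_of_le fun i _ => hEle i).1 h1
    exact fun i => h2 i (Finset.mem_univ i)
  have hcross : ∀ a b, cl a ≠ cl b → G.Adj a b := by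
    intro a b hab
    have hHK : H.edgeFinset = K.edgeFinset := by
      refine Finset.eq_of_subset_of_card_le
        (edgeFinset_mono (by rw [hH, hK]; exact inf_le_right)) ?_
      rw [ec_eq, ec_eq] at hHeq
      exact hHeq
    have h1 : s(a, b) ∈ K.edgeFinset := by
      rw [mem_edgeFinset, mem_edgeSet, hKadj]
      exact hab
    rw [← hHK, mem_edgeFinset, mem_edgeSet, hHadj] at h1
    exact h1.1
  -- the final embedding
  obtain ⟨c, e, hc, hpat⟩ := htight
  have hg : ∀ i, ∃ g : Fin μ → Sym2 V, Function.Injective g ∧ ∀ j, g j ∈ E i := by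
    intro i
    have hg := (E i).equivFinOfCardEq (hEeq i)
    exact ⟨fun j => (hg.symm j : Sym2 V), fun a b hab => hg.symm.injective (Subtype.ext hab),
      fun j => (hg.symm j).2⟩
  choose g hginj hgE using hg
  obtain ⟨φ, hφ, hφadj, hφcl⟩ := pair_choice (J := Fin k × Fin μ) G cl huniq (fun p => p.1)
    (fun p => g p.1 p.2) (by
      rintro ⟨i, j⟩ ⟨i', j'⟩ hab
      simp only at hab
      have hi : i = i' := by
        have h1 := ((hEmem i _).1 (hgE i j)).2
        have h2 := ((hEmem i' _).1 (hgE i' j')).2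
        rw [← hab] at h2
        have hx : (Quot.out (g i j)).1 ∈ g i j := by
          exact Sym2.out_fst_mem _
        rw [← h1 _ hx, ← h2 _ hx]
      subst hi
      rw [hginj i hab])
    (fun p => ((hEmem _ _).1 (hgE p.1 p.2)).1)
    (fun p => ((hEmem _ _).1 (hgE p.1 p.2)).2)
  have hφadj' : ∀ j β, G.Adj (φ (j, β)) (φ (j, !β)) := by
    intro j β
    cases β
    · exact hφadj j
    · exact (hφadj j).symm
  refine hfree (isContained_of_map L G (fun w => φ (e.symm w)) ?_ ?_)
  · intro a b hab
    exact e.symm.injective (hφ hab)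
  · intro a b hab
    by_cases hcc : c a = c b
    · obtain ⟨j, β, rfl, rfl⟩ := hpat a b hab hcc
      simp only [Equiv.symm_apply_apply]
      exact hφadj' j β
    · apply hcross
      rw [hφcl, hφcl]
      rw [← hc (e.symm a), ← hc (e.symm b), Equiv.apply_symm_apply, Equiv.apply_symm_apply]
      exact hcc

open scoped Classical in
/-- For large `n`, every graph with `tur k n + k μ` edges contains `L`. -/
theorem upper (k μ : ℕ) (hk : 2 ≤ k) {W : Type} [Fintype W] (L : SimpleGraph W)
    (hstar : StarPat k L) (hmatch : MatchPat k μ L) (htight : TightPat k μ L) :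
    ∃ N : ℕ, ∀ (V : Type) [Fintype V] (G : SimpleGraph V), N ≤ Fintype.card V →
    tur k (Fintype.card V) + k * μ ≤ ec G → L ⊑ G := by
  obtain ⟨M, hM⟩ := min_degree_case k μ hk L hstar hmatch htight
  have key : ∀ n : ℕ, ∀ (V : Type) [Fintype V] (G : SimpleGraph V) (j : ℕ),
      Fintype.card V = n → M + M * M + 1 ≤ n + j → tur k n + k * μ + j ≤ ec G → L ⊑ G := by
    intro n
    induction n with
    | zero =>
      intro V _ G j hn hj hedge
      exfalso
      have h1 := two_mul_ec G
      have h2 : IsEmpty V := Fintype.card_eq_zero_iff.1 hn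
      rw [Finset.univ_eq_empty, Finset.sum_empty] at h1
      omega
    | succ n ih =>
      intro V _ G j hn hj hedge
      by_cases hdeg : ∀ v, #{x | ¬ G.Adj v x} ≤ Fintype.card V / k + 1
      · by_cases hMn : M ≤ n + 1
        · refine hM V G (by rw [hn]; exact hMn) hdeg ?_
          rw [hn]
          omega
        · exfalso
          have h1 := two_mul_ec G
          have h2 : ∑ v, #{w | G.Adj v w} ≤ (n + 1) * (n + 1) := by
            calc ∑ v, #{w | G.Adj v w} ≤ ∑ v : V, (n + 1) := by
                  refine Finset.sum_le_sum fun v _ => ?_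
                  rw [← hn]
                  exact Finset.card_le_univ _
              _ = (n + 1) * (n + 1) := by
                  rw [Finset.sum_const, Finset.card_univ, hn, smul_eq_mul]
          have h3 : (n + 1) * (n + 1) ≤ M * M := by
            have : n + 1 ≤ M := by omega
            exact Nat.mul_le_mul this this
          omega
      · push Not at hdeg
        obtain ⟨v, hv⟩ := hdeg
        have hcard : Fintype.card ({v}ᶜ : Set V) = n := by
          rw [Fintype.card_compl_set, hn]
          simp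
        have h1 := ec_induce_compl G v
        have h2 : #{x | G.Adj v x} + #{x | ¬ G.Adj v x} = n + 1 := by
          rw [← hn, ← Finset.card_univ]
          exact Finset.card_filter_add_card_filter_not _
        have h3 := tur_succ k n (by omega)
        rw [hn] at hv
        have h4 : n / k ≤ (n + 1) / k := Nat.div_le_div_right (Nat.le_succ n)
        have hsub : L ⊑ G.induce {v}ᶜ := by
          refine ih ({v}ᶜ : Set V) (G.induce {v}ᶜ) (j + 1) hcard (by omega) ?_
          omega
        exact hsub.trans ⟨Copy.induce G {v}ᶜ⟩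
  refine ⟨M + M * M + 1, fun V _ G hV hedge => ?_⟩
  exact key _ V G 0 rfl (by omega) (by omega)

end Pool.Agent.H32.Tight
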