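import Mathlib
import Pool.Agent.H32.Tight.Extremal

/-!
# The graph with one more edge than the extremal number and few copies of `L`
-/

namespace Pool.Agent.H32.Tight

open Finset SimpleGraph

open scoped Classical in
/-- Every map to `k` classes whose edges inside classes form a matching with at most `2 μ` matched
vertices in each class matches all vertices. -/
def RigidPat (k μ : ℕ) {W : Type} [Fintype W] (L : SimpleGraph W) : Prop :=
  ∀ c : W → Fin k,
    (∀ w x y, L.Adj w x → L.Adj w y → c x = c w → c y = c w → x = y) →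
    (∀ i, #{w | c w = i ∧ ∃ x, L.Adj w x ∧ c x = c w} ≤ 2 * μ) →
    ∀ w, ∃ x, L.Adj w x ∧ c x = c w

/-- The Turán graph with `μ` disjoint edges added inside each class. -/
def gs (k μ n : ℕ) : SimpleGraph (Fin n) where
  Adj x y := (x : ℕ) % k ≠ (y : ℕ) % k ∨
    ((x : ℕ) % k = (y : ℕ) % k ∧ x ≠ y ∧ (x : ℕ) / k / 2 = (y : ℕ) / k / 2 ∧ (x : ℕ) / k / 2 < μ)
  symm := ⟨by
    intro x y h
    rcases h with h | ⟨h1, h2, h3, h4⟩
    · exact Or.inl h.symm
    · exact Or.inr ⟨h1.symm, h2.symm, h3.symm, h3 ▸ h4⟩⟩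
  loopless := ⟨by
    intro x h
    rcases h with h | ⟨h1, h2, h3, h4⟩
    · exact h rfl
    · exact h2 rfl⟩

theorem gs_adj (k μ n : ℕ) (x y : Fin n) : (gs k μ n).Adj x y ↔ ((x : ℕ) % k ≠ (y : ℕ) % k ∨
    ((x : ℕ) % k = (y : ℕ) % k ∧ x ≠ y ∧ (x : ℕ) / k / 2 = (y : ℕ) / k / 2 ∧
      (x : ℕ) / k / 2 < μ)) := Iff.rfl

theorem eq_of_div_mod (k a b : ℕ) (h1 : a / k = b / k) (h2 : a % k = b % k) : a = b := by
  rw [← Nat.div_add_mod a k, ← Nat.div_add_mod b k, h1, h2]

theorem gs_inner {k μ n : ℕ} {x y : Fin n} (h : (gs k μ n).Adj x y)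
    (hc : (y : ℕ) % k = (x : ℕ) % k) :
    (x : ℕ) / k ≠ (y : ℕ) / k ∧ (x : ℕ) / k / 2 = (y : ℕ) / k / 2 ∧ (x : ℕ) / k < 2 * μ := by
  rcases h with h | ⟨h1, h2, h3, h4⟩
  · exact absurd hc.symm h
  · refine ⟨fun h => h2 (Fin.ext (eq_of_div_mod k _ _ h h1)), h3, by omega⟩

theorem gs_unique {k μ n : ℕ} {x y z : Fin n} (hy : (gs k μ n).Adj x y) (hz : (gs k μ n).Adj x z)
    (hcy : (y : ℕ) % k = (x : ℕ) % k) (hcz : (z : ℕ) % k = (x : ℕ) % k) : y = z := by
  obtain ⟨a1, a2, -⟩ := gs_inner hy hcy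
  obtain ⟨b1, b2, -⟩ := gs_inner hz hcz
  refine Fin.ext (eq_of_div_mod k _ _ ?_ ?_)
  · omega
  · rw [hcy, hcz]

theorem card_special_class (k μ n : ℕ) (i : ℕ) :
    #{x : Fin n | (x : ℕ) % k = i ∧ (x : ℕ) / k < 2 * μ} ≤ 2 * μ := by
  calc #{x : Fin n | (x : ℕ) % k = i ∧ (x : ℕ) / k < 2 * μ}
      ≤ #(range (2 * μ)) := by
        refine Finset.card_le_card_of_injOn (fun x => (x : ℕ) / k) ?_ ?_
        · intro x hx
          rw [Finset.mem_coe, Finset.mem_filter] at hx
          rw [Finset.mem_coe, Finset.mem_range]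
          exact hx.2.2
        · intro x hx y hy hxy
          rw [Finset.mem_coe, Finset.mem_filter] at hx hy
          obtain ⟨-, hx⟩ := hx
          obtain ⟨-, hy⟩ := hy
          exact Fin.ext (eq_of_div_mod k _ _ hxy (by rw [hx.1, hy.1]))
    _ = 2 * μ := card_range _

theorem card_special (k μ n : ℕ) (hk : 0 < k) (hn : 2 * μ * k ≤ n) :
    #{x : Fin n | (x : ℕ) / k < 2 * μ} = 2 * μ * k := by
  have h1 : #{x : Fin n | (x : ℕ) / k < 2 * μ} = #(range (2 * μ * k)) := by
    rw [← Finset.card_map Fin.valEmbedding]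
    congr 1
    ext a
    simp only [Finset.mem_map, Finset.mem_filter, Finset.mem_univ, true_and,
      Fin.valEmbedding_apply, Finset.mem_range]
    constructor
    · rintro ⟨x, hx, rfl⟩
      rwa [Nat.div_lt_iff_lt_mul hk] at hx
    · intro ha
      refine ⟨⟨a, lt_of_lt_of_le ha hn⟩, ?_, rfl⟩
      rwa [Nat.div_lt_iff_lt_mul hk]
  rw [h1, card_range]

open scoped Classical in
theorem ec_gs (k μ n : ℕ) (hk : 0 < k) (hn : 2 * μ * k ≤ n) :
    ec (gs k μ n) = tur k n + k * μ := by
  have h1 := two_mul_ec (gs k μ n)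
  have h2 : 2 * ec (turanGraph n k) = ∑ x, #{y | (turanGraph n k).Adj x y} := by
    rw [two_mul_ec]
    congr!
  have h3 : ∀ x : Fin n, #{y | (gs k μ n).Adj x y} =
      #{y | (turanGraph n k).Adj x y} + if (x : ℕ) / k < 2 * μ then 1 else 0 := by
    intro x
    have h4 : (Finset.univ.filter fun y => (gs k μ n).Adj x y) =
        (Finset.univ.filter fun y => (turanGraph n k).Adj x y) ∪
        (Finset.univ.filter fun y => ((x : ℕ) % k = (y : ℕ) % k ∧ x ≠ y ∧
          (x : ℕ) / k / 2 = (y : ℕ) / k / 2 ∧ (x : ℕ) / k / 2 < μ)) := by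
      ext y
      simp only [Finset.mem_union, Finset.mem_filter, Finset.mem_univ, true_and, gs_adj,
        turanGraph_adj]
    rw [h4, Finset.card_union_of_disjoint]
    · congr 1
      split_ifs with hx
      · rw [Finset.card_eq_one]
        -- the partner
        have hx2 : (x : ℕ) < 2 * μ * k := by rwa [Nat.div_lt_iff_lt_mul hk] at hx
        obtain ⟨a, ha⟩ : ∃ a, (x : ℕ) / k = a := ⟨_, rfl⟩
        obtain ⟨b, hb⟩ : ∃ b, (x : ℕ) % k = b := ⟨_, rfl⟩
        have hbk : b < k := by rw [← hb]; exact Nat.mod_lt _ hk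
        obtain ⟨a', ha'⟩ : ∃ a', a' = if a % 2 = 0 then a + 1 else a - 1 := ⟨_, rfl⟩
        have ha1 : a' ≠ a ∧ a' / 2 = a / 2 ∧ a' < 2 * μ := by
          rw [ha'] 
          split_ifs <;> omega
        have hlt : k * a' + b < 2 * μ * k := by
          calc k * a' + b < k * a' + k := by omega
            _ = (a' + 1) * k := by ring
            _ ≤ 2 * μ * k := Nat.mul_le_mul_right k ha1.2.2
        have hd : (k * a' + b) / k = a' := by
          rw [Nat.mul_add_div hk, Nat.div_eq_of_lt hbk, Nat.add_zero]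
        have hm : (k * a' + b) % k = b := by
          rw [Nat.mul_add_mod, Nat.mod_eq_of_lt hbk]
        refine ⟨⟨k * a' + b, lt_of_lt_of_le hlt hn⟩, ?_⟩
        ext y
        simp only [Finset.mem_filter, Finset.mem_univ, true_and, Finset.mem_singleton]
        constructor
        · rintro ⟨e1, e2, e3, e4⟩
          refine Fin.ext (eq_of_div_mod k _ _ ?_ ?_)
          · simp only
            rw [hd]
            have : (x : ℕ) / k ≠ (y : ℕ) / k := fun h => e2 (Fin.ext (eq_of_div_mod k _ _ h e1))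
            rw [ha] at this e3
            have h5 := ha1.1
            have h6 := ha1.2.1
            omega
          · simp only
            rw [hm, ← e1, hb]
        · rintro rfl
          simp only
          rw [hd, hm, ha, hb]
          refine ⟨rfl, ?_, ha1.2.1.symm, by omega⟩
          intro hxy
          have := congrArg (fun z : Fin n => (z : ℕ) / k) hxy
          simp only [hd, ha] at this
          exact ha1.1 this.symm
      · rw [Finset.card_eq_zero, Finset.filter_eq_empty_iff]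
        rintro y - ⟨-, -, -, h⟩
        omega
    · rw [Finset.disjoint_filter]
      intro y _ h5 h6
      rw [turanGraph_adj] at h5
      exact h5 h6.1
  rw [Finset.sum_congr rfl fun x _ => h3 x, Finset.sum_add_distrib, ← h2, ← Finset.card_filter,
    card_special k μ n hk hn] at h1
  have h5 : 2 * μ * k = 2 * (k * μ) := by ring
  rw [h5] at h1
  change 2 * ec (gs k μ n) = 2 * tur k n + 2 * (k * μ) at h1
  omega

section copies

variable {k μ n : ℕ} {W : Type} [Fintype W] {L : SimpleGraph W}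

open scoped Classical in
theorem matched_of_copy (hk : 0 < k) (hrigid : RigidPat k μ L) (f : W → Fin n)
    (hf : Function.Injective f) (hadj : ∀ a b, L.Adj a b → (gs k μ n).Adj (f a) (f b)) :
    ∀ w, ∃ x, L.Adj w x ∧ (f x : ℕ) % k = (f w : ℕ) % k := by
  have h := hrigid (fun w => ⟨(f w : ℕ) % k, Nat.mod_lt _ hk⟩) ?_ ?_
  · intro w
    obtain ⟨x, hx, hx2⟩ := h w
    exact ⟨x, hx, congrArg Fin.val hx2⟩
  · intro w x y hx hy hcx hcy
    exact hf (gs_unique (hadj _ _ hx) (hadj _ _ hy) (congrArg Fin.val hcx) (congrArg Fin.val hcy))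
  · intro i
    refine le_trans ?_ (card_special_class k μ n i)
    refine Finset.card_le_card_of_injOn f ?_ (fun a _ b _ hab => hf hab)
    intro w hw
    rw [Finset.mem_coe, Finset.mem_filter] at hw ⊢
    obtain ⟨-, h1, x, h2, h3⟩ := hw
    refine ⟨Finset.mem_univ _, congrArg Fin.val h1, ?_⟩
    exact (gs_inner (hadj _ _ h2) (congrArg Fin.val h3)).2.2

theorem special_of_copy (hk : 0 < k) (hrigid : RigidPat k μ L) (f : W → Fin n)
    (hf : Function.Injective f) (hadj : ∀ a b, L.Adj a b → (gs k μ n).Adj (f a) (f b)) :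
    ∀ w, (f w : ℕ) / k < 2 * μ := by
  intro w
  obtain ⟨x, hx, hx2⟩ := matched_of_copy hk hrigid f hf hadj w
  exact (gs_inner (hadj _ _ hx) hx2).2.2

open scoped Classical in
theorem copyCount_gs (hk : 0 < k) (hrigid : RigidPat k μ L) (hn : 2 * μ * k ≤ n) :
    (gs k μ n).copyCount L ≤ (2 * μ * k) ^ Fintype.card W := by
  refine le_trans copyCount_le_labelledCopyCount ?_
  have h0 : (gs k μ n).labelledCopyCount L = Nat.card (Copy L (gs k μ n)) := by
    rw [labelledCopyCount, Nat.card_eq_fintype_card]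
    congr!
  have hcardS : Nat.card {x : Fin n // (x : ℕ) / k < 2 * μ} = 2 * μ * k := by
    rw [Nat.card_eq_fintype_card, Fintype.card_subtype]
    exact card_special k μ n hk hn
  have h1 : Nat.card (W → {x : Fin n // (x : ℕ) / k < 2 * μ}) =
      (2 * μ * k) ^ Fintype.card W := by
    rw [Nat.card_fun, hcardS, Nat.card_eq_fintype_card]
  rw [h0, ← h1]
  refine Nat.card_le_card_of_injective
    (fun f => fun w => ⟨f w, special_of_copy hk hrigid f f.injective
      (fun a b h => f.toHom.map_rel h) w⟩) ?_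
  intro f g hfg
  ext w
  have := congrFun hfg w
  rw [Subtype.mk.injEq] at this
  rw [this]

open scoped Classical in
theorem free_of_delete (hk : 0 < k) (hμ : 0 < μ) (hrigid : RigidPat k μ L)
    (hW : Fintype.card W = 2 * μ * k) (hn : 2 * μ * k ≤ n) :
    ∃ G : SimpleGraph (Fin n), ¬ L ⊑ G ∧ ec G + 1 = ec (gs k μ n) := by
  have hn2 : 2 * k ≤ n := by
    refine le_trans ?_ hn
    have : 2 * k * 1 ≤ 2 * k * μ := Nat.mul_le_mul_left _ hμ
    calc 2 * k = 2 * k * 1 := by ring
      _ ≤ 2 * k * μ := this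
      _ = 2 * μ * k := by ring
  obtain ⟨x₀, hx₀⟩ : ∃ x₀ : Fin n, (x₀ : ℕ) = 0 := ⟨⟨0, by omega⟩, rfl⟩
  obtain ⟨y₀, hy₀⟩ : ∃ y₀ : Fin n, (y₀ : ℕ) = k := ⟨⟨k, by omega⟩, rfl⟩
  have hadj0 : (gs k μ n).Adj x₀ y₀ := by
    rw [gs_adj]
    right
    rw [hx₀, hy₀, Nat.zero_mod, Nat.mod_self, Nat.zero_div, Nat.div_self hk]
    refine ⟨rfl, ?_, rfl, ?_⟩
    · intro h
      have := congrArg Fin.val h
      omega
    · simpa using hμ
  refine ⟨(gs k μ n).deleteEdges {s(x₀, y₀)}, ?_, ?_⟩
  · rintro ⟨f⟩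
    have hadj' : ∀ a b, L.Adj a b → (gs k μ n).Adj (f a) (f b) ∧ s(f a, f b) ≠ s(x₀, y₀) := by
      intro a b hab
      have h1 : ((gs k μ n).deleteEdges {s(x₀, y₀)}).Adj (f a) (f b) := f.toHom.map_rel hab
      rw [deleteEdges_adj] at h1
      exact ⟨h1.1, h1.2⟩
    have hadj : ∀ a b, L.Adj a b → (gs k μ n).Adj (f a) (f b) := fun a b h => (hadj' a b h).1
    have hspec := special_of_copy hk hrigid f f.injective hadj
    have hmat := matched_of_copy hk hrigid f f.injective hadj
    -- `f` is onto the special vertices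
    have himg : Finset.univ.image f =
        Finset.univ.filter (fun x : Fin n => (x : ℕ) / k < 2 * μ) := by
      refine Finset.eq_of_subset_of_card_le ?_ ?_
      · intro x hx
        obtain ⟨w, -, rfl⟩ := Finset.mem_image.1 hx
        simpa using hspec w
      · have hfi : Function.Injective (fun w => f w) := f.injective
        rw [card_special k μ n hk hn]
        refine le_of_eq ?_
        rw [← hW, ← Finset.card_univ]
        exact (Finset.card_image_of_injective _ hfi).symm
    have hx0 : x₀ ∈ Finset.univ.image f := by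
      rw [himg, Finset.mem_filter, hx₀, Nat.zero_div]
      exact ⟨Finset.mem_univ _, by omega⟩
    obtain ⟨w, -, hw⟩ := Finset.mem_image.1 hx0
    obtain ⟨x, hx, hx2⟩ := hmat w
    have h1 : f x = y₀ := by
      refine gs_unique (hadj _ _ hx) (by rw [hw]; exact hadj0) hx2 ?_
      rw [hw, hx₀, hy₀, Nat.mod_self, Nat.zero_mod]
    exact (hadj' _ _ hx).2 (by rw [hw, h1])
  · rw [ec_eq, ec_eq]
    have h1 : ((gs k μ n).deleteEdges {s(x₀, y₀)}).edgeFinset =
        (gs k μ n).edgeFinset.erase s(x₀, y₀) := by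
      ext s
      rw [mem_edgeFinset, edgeSet_deleteEdges, Finset.mem_erase, mem_edgeFinset]
      simp only [Set.mem_sdiff, Set.mem_singleton_iff]
      tauto
    rw [h1, Finset.card_erase_of_mem (by rw [mem_edgeFinset, mem_edgeSet]; exact hadj0)]
    have : 0 < #(gs k μ n).edgeFinset :=
      Finset.card_pos.2 ⟨s(x₀, y₀), by rw [mem_edgeFinset, mem_edgeSet]; exact hadj0⟩
    omega

end copies

end Pool.Agent.H32.Tight
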