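import Mathlib
import Pool.Agent.H32.Tight.Lower

/-!
# From the four patterns to a bounded number of copies
-/

namespace Pool.Agent.H32.Tight

open Finset SimpleGraph

/-- `A(n;L)`: the least number of copies of `L` in a graph with `n` vertices and
`ex(n;L)+1` edges. -/
noncomputable def minCopies {W : Type} (n : ℕ) (L : SimpleGraph W) : ℕ :=
  sInf {a | ∃ G : SimpleGraph (Fin n),
    Nat.card G.edgeSet = extremalNumber n L + 1 ∧ G.copyCount L = a}

section

variable {k μ : ℕ} {W : Type} [Fintype W] {L : SimpleGraph W}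

theorem card_of_tight (h : TightPat k μ L) : Fintype.card W = 2 * μ * k := by
  obtain ⟨c, e, -, -⟩ := h
  rw [← Fintype.card_congr e]
  simp only [Fintype.card_prod, Fintype.card_fin, Fintype.card_bool]
  ring

open scoped Classical in
theorem bounded (hk : 2 ≤ k) (hμ : 0 < μ) (hstar : StarPat k L) (hmatch : MatchPat k μ L)
    (htight : TightPat k μ L) (hrigid : RigidPat k μ L) :
    ∃ C N : ℕ, ∀ n, N ≤ n → ∃ G : SimpleGraph (Fin n),
      Nat.card G.edgeSet = extremalNumber n L + 1 ∧ G.copyCount L ≤ C := by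
  obtain ⟨N, hN⟩ := upper k μ hk L hstar hmatch htight
  refine ⟨(2 * μ * k) ^ Fintype.card W, N + 2 * μ * k + 1, fun n hn => ?_⟩
  have hk0 : 0 < k := by omega
  have hn2 : 2 * μ * k ≤ n := by omega
  refine ⟨gs k μ n, ?_, copyCount_gs hk0 hrigid hn2⟩
  have h1 : ec (gs k μ n) = tur k n + k * μ := ec_gs k μ n hk0 hn2
  obtain ⟨G, hG, hG2⟩ := free_of_delete hk0 hμ hrigid (card_of_tight htight) hn2
  have h2 : ec G ≤ extremalNumber n L := by
    rw [ec_eq]
    have := card_edgeFinset_le_extremalNumber (G := G) (H := L) hG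
    rwa [Fintype.card_fin] at this
  have h3 : extremalNumber n L ≤ ec G := by
    have h4 := (extremalNumber_le_iff (V := Fin n) L (ec G)).2 ?_
    · rwa [Fintype.card_fin] at h4
    · intro G' _ hfree
      by_contra hcon
      push Not at hcon
      rw [← ec_eq] at hcon
      apply hfree
      refine hN (Fin n) G' (by rw [Fintype.card_fin]; omega) ?_
      rw [Fintype.card_fin]
      omega
  change ec (gs k μ n) = _
  omega

omit [Fintype W] in
theorem minCopies_bounded (h : ∃ C N : ℕ, ∀ n, N ≤ n → ∃ G : SimpleGraph (Fin n),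
      Nat.card G.edgeSet = extremalNumber n L + 1 ∧ G.copyCount L ≤ C) :
    ∃ C, ∀ n, minCopies n L ≤ C := by
  obtain ⟨C, N, h⟩ := h
  refine ⟨C + ∑ n ∈ range N, minCopies n L, fun n => ?_⟩
  by_cases hn : N ≤ n
  · obtain ⟨G, h1, h2⟩ := h n hn
    have : minCopies n L ≤ G.copyCount L := Nat.sInf_le ⟨G, h1, rfl⟩
    omega
  · have : minCopies n L ≤ ∑ n ∈ range N, minCopies n L :=
      Finset.single_le_sum (f := fun n => minCopies n L) (fun _ _ => Nat.zero_le _)
        (Finset.mem_range.2 (by omega))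
    omega

omit [Fintype W] in
theorem not_tendsto (h : ∃ C, ∀ n, minCopies n L ≤ C) :
    ¬ Filter.Tendsto (fun n => minCopies n L) Filter.atTop Filter.atTop := by
  obtain ⟨C, h⟩ := h
  intro ht
  obtain ⟨n, hn⟩ := (Filter.tendsto_atTop.1 ht (C + 1)).exists
  have := h n
  omega

theorem not_colorable (hμ : 0 < μ) (hk : 0 < k) (htight : TightPat k μ L)
    (hrigid : RigidPat k μ L) : ¬ L.Colorable k := by
  classical
  rintro ⟨C⟩
  have hne : Nonempty W := by
    rw [← Fintype.card_pos_iff, card_of_tight htight]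
    positivity
  obtain ⟨w⟩ := hne
  have h := hrigid C ?_ ?_ w
  · obtain ⟨x, hx, hx2⟩ := h
    exact C.valid hx hx2.symm
  · intro w x y hx _ hcx _
    exact absurd hcx.symm (C.valid hx)
  · intro i
    have : (Finset.univ.filter fun w => C w = i ∧ ∃ x, L.Adj w x ∧ C x = C w) = ∅ := by
      rw [Finset.filter_eq_empty_iff]
      rintro w - ⟨-, x, hx, hx2⟩
      exact C.valid hx hx2.symm
    rw [this]
    simp

omit [Fintype W] in
theorem colorable_succ (hk : 0 < k) (hstar : StarPat k L) : L.Colorable (k + 1) := by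
  classical
  obtain ⟨c, v, x₁, x₂, -, -, -, -, -, -, hpat⟩ := hstar ⟨0, hk⟩
  refine ⟨Coloring.mk (fun w => if w = v then Fin.last k else (c w).castSucc) ?_⟩
  intro a b hab
  by_cases ha : a = v
  · subst ha
    have hb : b ≠ a := hab.ne'
    simp only [if_true, if_neg hb]
    exact (Fin.castSucc_lt_last _).ne'
  · by_cases hb : b = v
    · subst hb
      simp only [if_true, if_neg ha]
      exact (Fin.castSucc_lt_last _).ne
    · simp only [if_neg ha, if_neg hb]
      intro h
      have h2 := Fin.castSucc_injective k h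
      rcases hpat a b hab h2 with ⟨h3, -⟩ | ⟨h3, -⟩
      · exact ha h3
      · exact hb h3

theorem chromaticNumber_eq (hk : 0 < k) (hμ : 0 < μ) (hstar : StarPat k L)
    (htight : TightPat k μ L) (hrigid : RigidPat k μ L) : L.chromaticNumber = k + 1 :=
  chromaticNumber_eq_iff_colorable_not_colorable.2
    ⟨colorable_succ hk hstar, not_colorable hμ hk htight hrigid⟩

open scoped Classical in
theorem card_class_of_equiv (c : W → Fin k) (e : (Fin k × Fin μ) × Bool ≃ W)
    (hc : ∀ p, c (e p) = p.1.1) (i : Fin k) : #{w | c w = i} ≤ 2 * μ := by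
  have h1 : Fintype.card (Fin μ × Bool) = 2 * μ := by
    simp only [Fintype.card_prod, Fintype.card_fin, Fintype.card_bool]
    ring
  rw [← h1, ← Finset.card_univ]
  have hc' : ∀ w, c w = (e.symm w).1.1 := by
    intro w
    rw [← hc (e.symm w), Equiv.apply_symm_apply]
  refine Finset.card_le_card_of_injOn (fun w => ((e.symm w).1.2, (e.symm w).2))
    (fun w _ => Finset.mem_coe.2 (Finset.mem_univ _)) ?_
  intro a ha b hb hab
  rw [Finset.mem_coe, Finset.mem_filter] at ha hb
  apply e.symm.injective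
  rw [Prod.mk.injEq] at hab
  refine Prod.ext (Prod.ext ?_ hab.1) hab.2
  rw [← hc', ← hc', ha.2, hb.2]

theorem connected (hk : 0 < k) (hμ : 0 < μ) (hstar : StarPat k L)
    (htight : TightPat k μ L) (hrigid : RigidPat k μ L) : L.Connected := by
  classical
  obtain ⟨c₁, v, x₁, x₂, -, -, -, -, -, -, hpat₁⟩ := hstar ⟨0, hk⟩
  obtain ⟨c₂, e, hc₂, hpat₂⟩ := htight
  suffices h : ∀ w, L.Reachable v w by
    have : Nonempty W := ⟨v⟩
    exact ⟨fun a b => (h a).symm.trans (h b)⟩
  by_contra hcon
  push Not at hcon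
  obtain ⟨w₀, hw₀⟩ := hcon
  have hiff : ∀ a b, L.Adj a b → (L.Reachable v a ↔ L.Reachable v b) := fun a b hab =>
    ⟨fun h => h.trans hab.reachable, fun h => h.trans hab.symm.reachable⟩
  obtain ⟨c, hc⟩ : ∃ c : W → Fin k, c = fun w => if L.Reachable v w then c₂ w else c₁ w :=
    ⟨_, rfl⟩
  have hcR : ∀ w, L.Reachable v w → c w = c₂ w := by
    intro w hw
    rw [hc]; simp only; rw [if_pos hw]
  have hcN : ∀ w, ¬ L.Reachable v w → c w = c₁ w := by
    intro w hw
    rw [hc]; simp only; rw [if_neg hw]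
  have hN : ∀ a b, ¬ L.Reachable v a → L.Adj a b → c b = c a → False := by
    intro a b ha hab hcab
    have hb : ¬ L.Reachable v b := fun h => ha ((hiff a b hab).2 h)
    rw [hcN a ha, hcN b hb] at hcab
    rcases hpat₁ a b hab hcab.symm with ⟨rfl, -⟩ | ⟨rfl, -⟩
    · exact ha (Reachable.refl _)
    · exact hb (Reachable.refl _)
  have h := hrigid c ?_ ?_ w₀
  · obtain ⟨x, hx, hx2⟩ := h
    exact hN w₀ x hw₀ hx hx2
  · intro w x y hx hy hcx hcy
    by_cases hw : L.Reachable v w
    · have hxR := (hiff w x hx).1 hw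
      have hyR := (hiff w y hy).1 hw
      rw [hcR w hw, hcR x hxR] at hcx
      rw [hcR w hw, hcR y hyR] at hcy
      obtain ⟨j, β, h1, h2⟩ := hpat₂ w x hx hcx.symm
      obtain ⟨j', β', h3, h4⟩ := hpat₂ w y hy hcy.symm
      rw [h3] at h1
      have h5 := e.injective h1
      rw [Prod.mk.injEq] at h5
      rw [h2, h4, h5.1, h5.2]
    · exact (hN w x hw hx hcx).elim
  · intro i
    refine le_trans (Finset.card_le_card ?_) (card_class_of_equiv c₂ e hc₂ i)
    intro w hw
    rw [Finset.mem_filter] at hw ⊢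
    obtain ⟨-, h1, x, h2, h3⟩ := hw
    refine ⟨Finset.mem_univ _, ?_⟩
    by_cases hwR : L.Reachable v w
    · rw [← hcR w hwR, h1]
    · exact (hN w x hwR h2 h3).elim

/-- All conclusions together. -/
theorem conclude (hk : 2 ≤ k) (hμ : 0 < μ) (hstar : StarPat k L) (hmatch : MatchPat k μ L)
    (htight : TightPat k μ L) (hrigid : RigidPat k μ L) :
    L.Connected ∧ L.chromaticNumber = k + 1 ∧
    (∃ C N : ℕ, ∀ n, N ≤ n → ∃ G : SimpleGraph (Fin n),
      Nat.card G.edgeSet = extremalNumber n L + 1 ∧ G.copyCount L ≤ C) :=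
  ⟨connected (by omega) hμ hstar htight hrigid,
    chromaticNumber_eq (by omega) hμ hstar htight hrigid,
    bounded hk hμ hstar hmatch htight hrigid⟩

end

end Pool.Agent.H32.Tight
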