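import Mathlib

/-!
# Proper colourings of powers of complete graphs are projections (Greenwell and Lovász)
-/

namespace Pool.Agent.H32.Tight

open Function

/-- a permutation with two prescribed values -/
theorem exists_perm {α : Type} [DecidableEq α] (a b x z : α) (hab : a ≠ b) (hxz : x ≠ z) :
    ∃ σ : Equiv.Perm α, σ a = x ∧ σ b = z := by
  obtain ⟨τ, hτ⟩ : ∃ τ : Equiv.Perm α, τ = Equiv.swap a x := ⟨_, rfl⟩
  have h1 : τ a = x := by rw [hτ, Equiv.swap_apply_left]
  refine ⟨τ.trans (Equiv.swap (τ b) z), ?_, ?_⟩
  · rw [Equiv.trans_apply, h1]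
    refine Equiv.swap_apply_of_ne_of_ne ?_ hxz
    rw [← h1]
    exact fun h => hab (τ.injective h)
  · rw [Equiv.trans_apply, Equiv.swap_apply_left]

variable {r : ℕ} {ι : Type} [DecidableEq ι]

/-- the basic step -/
theorem project_step (hr : 1 ≤ r) (f : (ι → Fin (r + 1)) → Fin (r + 1))
    (hf : ∀ x y, (∀ t, x t ≠ y t) → f x ≠ f y) (i : ι) (x : ι → Fin (r + 1)) (a : Fin (r + 1))
    (hne : f (update x i a) ≠ f x) (y : ι → Fin (r + 1)) (hy : ∀ j, j ≠ i → y j ≠ x j) :
    f (update y i (x i)) = f x ∧ f (update y i a) = f (update x i a) := by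
  have hax : a ≠ x i := by
    rintro rfl
    rw [update_eq_self] at hne
    exact hne rfl
  obtain ⟨z, hz⟩ : ∃ z, z = update y i a := ⟨_, rfl⟩
  have hzi : z i = a := by rw [hz, update_self]
  have hzj : ∀ j, j ≠ i → z j = y j := fun j hj => by rw [hz, update_of_ne hj]
  have hxz : ∀ j, x j ≠ z j := by
    intro j
    by_cases hj : j = i
    · subst hj
      rw [hzi]; exact hax.symm
    · rw [hzj j hj]; exact (hy j hj).symm
  have h01 : (0 : Fin (r + 1)) ≠ 1 := by
    intro h
    have := congrArg Fin.val h
    rw [Fin.val_zero, Fin.val_one'] at this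
    rw [Nat.mod_eq_of_lt (by omega)] at this
    omega
  choose σ hσ0 hσ1 using fun j => exists_perm (0 : Fin (r + 1)) 1 (x j) (z j) h01 (hxz j)
  -- the clique
  obtain ⟨q, hq⟩ : ∃ q : Fin (r + 1) → (ι → Fin (r + 1)), q = fun t j => σ j t := ⟨_, rfl⟩
  have hq0 : q 0 = x := by
    rw [hq]; funext j; exact hσ0 j
  have hq1 : q 1 = z := by
    rw [hq]; funext j; exact hσ1 j
  have hinj : Injective (fun t => f (q t)) := by
    intro s t hst
    by_contra hne'
    refine hf (q s) (q t) ?_ hst
    intro j hj
    rw [hq] at hj
    exact hne' ((σ j).injective hj)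
  have hsurj : Surjective (fun t => f (q t)) := Finite.surjective_of_injective hinj
  -- vertices of the small cube avoid the colours of the other clique vertices
  have hcube : ∀ w : ι → Fin (r + 1), (∀ j, w j = x j ∨ w j = z j) → f w = f x ∨ f w = f z := by
    intro w hw
    obtain ⟨t, ht⟩ := hsurj (f w)
    simp only at ht
    by_cases ht0 : t = 0
    · left
      rw [← ht, ht0, hq0]
    · by_cases ht1 : t = 1
      · right
        rw [← ht, ht1, hq1]
      · exfalso
        refine hf (q t) w ?_ ht
        intro j hj
        rcases hw j with h | h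
        · rw [h, ← hσ0 j, hq] at hj
          exact ht0 ((σ j).injective hj)
        · rw [h, ← hσ1 j, hq] at hj
          exact ht1 ((σ j).injective hj)
  have h1 : f (update x i a) = f z := by
    rcases hcube (update x i a) (by
      intro j
      by_cases hj : j = i
      · subst hj
        right
        rw [update_self, hzi]
      · left
        rw [update_of_ne hj]) with h | h
    · exact absurd h hne
    · exact h
  have h2 : f (update y i (x i)) = f x := by
    rcases hcube (update y i (x i)) (by
      intro j
      by_cases hj : j = i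
      · subst hj
        left
        rw [update_self]
      · right
        rw [update_of_ne hj, hzj j hj]) with h | h
    · exact h
    · exfalso
      rw [← h1] at h
      refine hf _ _ ?_ h
      intro j
      by_cases hj : j = i
      · subst hj
        rw [update_self, update_self]
        exact hax.symm
      · rw [update_of_ne hj, update_of_ne hj]
        exact hy j hj
  exact ⟨h2, by rw [h1, hz]⟩

/-- choose a value different from two given ones -/
theorem exists_ne_ne (hr : 2 ≤ r) (a b : Fin (r + 1)) : ∃ c, c ≠ a ∧ c ≠ b := by
  have h : ({a, b} : Finset (Fin (r + 1))).card < Fintype.card (Fin (r + 1)) := by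
    rw [Fintype.card_fin]
    exact lt_of_le_of_lt Finset.card_le_two (by omega)
  obtain ⟨c, hc⟩ : ∃ c, c ∉ ({a, b} : Finset (Fin (r + 1))) := by
    by_contra hcon
    push Not at hcon
    have := Finset.eq_univ_iff_forall.2 hcon
    rw [this, Finset.card_univ] at h
    exact lt_irrefl _ h
  simp only [Finset.mem_insert, Finset.mem_singleton, not_or] at hc
  exact ⟨c, hc.1, hc.2⟩

theorem project_slice (hr : 2 ≤ r) (f : (ι → Fin (r + 1)) → Fin (r + 1))
    (hf : ∀ x y, (∀ t, x t ≠ y t) → f x ≠ f y) (i : ι) (x : ι → Fin (r + 1)) (a : Fin (r + 1))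
    (hne : f (update x i a) ≠ f x) (y : ι → Fin (r + 1)) :
    f (update y i (x i)) = f x ∧ f (update y i a) = f (update x i a) := by
  choose w hwx hwy using fun j => exists_ne_ne hr (x j) (y j)
  have h1 := project_step (by omega) f hf i x a hne w (fun j _ => hwx j)
  obtain ⟨x₁, hx₁⟩ : ∃ x₁, x₁ = update w i (x i) := ⟨_, rfl⟩
  have hx₁a : update x₁ i a = update w i a := by rw [hx₁, update_idem]
  have hx₁i : x₁ i = x i := by rw [hx₁, update_self]
  have h2 := project_step (by omega) f hf i x₁ a (by
    rw [hx₁a, hx₁, h1.1, h1.2]
    exact hne) y (fun j hj => by rw [hx₁, update_of_ne hj]; exact (hwy j).symm)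
  rw [hx₁i, hx₁a, h1.2] at h2
  rw [hx₁, h1.1] at h2
  exact h2

theorem project_unique (hr : 2 ≤ r) (f : (ι → Fin (r + 1)) → Fin (r + 1))
    (hf : ∀ x y, (∀ t, x t ≠ y t) → f x ≠ f y) (i j : ι) (hij : i ≠ j)
    (x : ι → Fin (r + 1)) (a : Fin (r + 1)) (hx : f (update x i a) ≠ f x)
    (y : ι → Fin (r + 1)) (b : Fin (r + 1)) (hy : f (update y j b) ≠ f y) : False := by
  have h1 := (project_slice hr f hf i x a hx (update (update x i (x i)) j (y j))).1
  have h2 := (project_slice hr f hf j y b hy (update x i (x i))).1
  have h3 := (project_slice hr f hf i x a hx (update (update x i (x i)) j b)).1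
  have h4 := (project_slice hr f hf j y b hy (update x i (x i))).2
  have e1 : ∀ c, update (update (update x i (x i)) j c) i (x i) =
      update (update x i (x i)) j c := by
    intro c
    rw [update_eq_iff]
    refine ⟨?_, fun _ _ => rfl⟩
    rw [update_of_ne hij, update_self]
  rw [e1] at h1 h3
  rw [h1] at h2
  rw [h3] at h4
  apply hy
  rw [← h4, h2]

/-- A proper colouring of a power of a complete graph with at least three vertices is a
projection. -/
theorem project [Fintype ι] (hr : 2 ≤ r) (f : (ι → Fin (r + 1)) → Fin (r + 1))
    (hf : ∀ x y, (∀ t, x t ≠ y t) → f x ≠ f y) :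
    ∃ (i : ι) (g : Fin (r + 1) → Fin (r + 1)), Injective g ∧ ∀ x, f x = g (x i) := by
  by_cases hdep : ∃ i x a, f (update x i a) ≠ f x
  · obtain ⟨i, x, a, hx⟩ := hdep
    have hind : ∀ j, j ≠ i → ∀ y b, f (update y j b) = f y := by
      intro j hj y b
      by_contra hne
      exact project_unique hr f hf i j hj.symm x a hx y b hne
    have hall : ∀ (s : Finset ι), i ∉ s → ∀ y z : ι → Fin (r + 1),
        f (fun j => if j ∈ s then z j else y j) = f y := by
      intro s
      induction s using Finset.induction_on with
      | empty => intro _ y z; simp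
      | insert j s hj ih =>
        intro his y z
        rw [Finset.mem_insert, not_or] at his
        have h1 : (fun k => if k ∈ insert j s then z k else y k) =
            update (fun k => if k ∈ s then z k else y k) j (z j) := by
          funext k
          by_cases hk : k = j
          · subst hk
            rw [update_self, if_pos (Finset.mem_insert_self _ _)]
          · rw [update_of_ne hk]
            simp only [Finset.mem_insert, hk, false_or]
        rw [h1, hind j (Ne.symm his.1), ih his.2]
    have hfi : ∀ y z : ι → Fin (r + 1), y i = z i → f y = f z := by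
      intro y z hyz
      have h1 := hall (Finset.univ.erase i) (Finset.notMem_erase i _) y z
      rw [← h1]
      congr 1
      funext j
      by_cases hj : j = i
      · subst hj
        rw [if_neg (Finset.notMem_erase j _), hyz]
      · rw [if_pos (Finset.mem_erase.2 ⟨hj, Finset.mem_univ _⟩)]
    refine ⟨i, fun b => f (fun _ => b), ?_, fun y => hfi y _ rfl⟩
    intro b c hbc
    by_contra hne
    exact hf (fun _ => b) (fun _ => c) (fun _ => hne) hbc
  · exfalso
    push Not at hdep
    have hall : ∀ (s : Finset ι), ∀ y z : ι → Fin (r + 1),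
        f (fun j => if j ∈ s then z j else y j) = f y := by
      intro s
      induction s using Finset.induction_on with
      | empty => intro y z; simp
      | insert j s hj ih =>
        intro y z
        have h1 : (fun k => if k ∈ insert j s then z k else y k) =
            update (fun k => if k ∈ s then z k else y k) j (z j) := by
          funext k
          by_cases hk : k = j
          · subst hk
            rw [update_self, if_pos (Finset.mem_insert_self _ _)]
          · rw [update_of_ne hk]
            simp only [Finset.mem_insert, hk, false_or]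
        rw [h1, hdep j, ih]
    have h1 := hall Finset.univ (fun _ => 0) (fun _ => 1)
    simp only [Finset.mem_univ, if_true] at h1
    refine hf (fun _ => 1) (fun _ => 0) ?_ h1
    intro _ h
    have := congrArg Fin.val h
    rw [Fin.val_zero, Fin.val_one', Nat.mod_eq_of_lt (by omega)] at this
    omega

end Pool.Agent.H32.Tight
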