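import Mathlib
import Pool.Agent.H32.Tight.Conclude
import Pool.Agent.H32.Tight.Project

/-!
# The graphs for three and more classes
-/

namespace Pool.Agent.H32.Tight

open Finset SimpleGraph

/-- the index inside a class: `(i, l, b, y)` -/
abbrev Idx (r : ℕ) : Type := Fin (r + 1) × Fin r × Bool × Fin (r + 1)

/-- vertices: class `j`, index, side -/
abbrev Vx (r : ℕ) : Type := (Fin (r + 1) × Idx r) × Bool

/-- the position of a vertex in the cube -/
def pos {r : ℕ} (w : Vx r) : Fin 3 → Fin (r + 1) :=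
  if w.2 then ![w.1.2.1 + 1, w.1.1, w.1.2.2.1.succ] else ![w.1.2.1, w.1.1, 0]

theorem pos_top {r : ℕ} (p : Fin (r + 1) × Idx r) : pos (p, false) = ![p.2.1, p.1, 0] := rfl

theorem pos_bot {r : ℕ} (p : Fin (r + 1) × Idx r) :
    pos (p, true) = ![p.2.1 + 1, p.1, p.2.2.1.succ] := rfl

/-- indices of the edges between tops: `(j, i, l, y)` -/
abbrev TIdx (r : ℕ) : Type := Fin (r + 1) × Fin (r + 1) × Fin r × Fin (r + 1)

/-- the two ends of an edge between tops -/
def tEnd {r : ℕ} (t : TIdx r) (β : Bool) : Vx r :=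
  if β then ((t.1 + 1, t.2.1 + 1, t.2.2.1, true, t.2.2.2), false)
  else ((t.1, t.2.1, t.2.2.1, false, t.2.2.2), false)

theorem tEnd_false {r : ℕ} (t : TIdx r) :
    tEnd t false = ((t.1, t.2.1, t.2.2.1, false, t.2.2.2), false) := rfl

theorem tEnd_true {r : ℕ} (t : TIdx r) :
    tEnd t true = ((t.1 + 1, t.2.1 + 1, t.2.2.1, true, t.2.2.2), false) := rfl

/-- the centre of the star -/
def ctr (r : ℕ) (hr : 0 < r) : Vx r := ((0, 0, ⟨0, hr⟩, false, 0), false)

/-- the leaves of the star -/
def leaf (r : ℕ) (hr : 0 < r) (b : Bool) : Vx r := ((1, Fin.last r, ⟨0, hr⟩, b, 0), true)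

/-- the directed relation -/
def rel {r : ℕ} (hr : 0 < r) (T : Finset (TIdx r)) (a b : Vx r) : Prop :=
  (∀ t, pos a t ≠ pos b t) ∨ (a.1 = b.1 ∧ a.2 ≠ b.2) ∨
    (∃ t ∈ T, a = tEnd t false ∧ b = tEnd t true) ∨
    (a = ctr r hr ∧ ∃ β, b = leaf r hr β)

/-- the graph -/
def lg {r : ℕ} (hr : 0 < r) (T : Finset (TIdx r)) : SimpleGraph (Vx r) :=
  SimpleGraph.fromRel (rel hr T)

section

variable {r : ℕ} (hr : 2 ≤ r)

include hr

theorem one_ne_zero' : (1 : Fin (r + 1)) ≠ 0 := by
  intro h
  have := congrArg Fin.val h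
  rw [Fin.val_zero, Fin.val_one', Nat.mod_eq_of_lt (by omega)] at this
  omega

theorem add_one_ne (x : Fin (r + 1)) : x + 1 ≠ x := by
  intro h
  have : (1 : Fin (r + 1)) = 0 := by
    have h2 : x + 1 = x + 0 := by rw [h, add_zero]
    exact add_left_cancel h2
  exact one_ne_zero' hr this

theorem pos_ctr : pos (ctr r (by omega)) = ![0, 0, 0] := rfl

theorem pos_leaf (β : Bool) : pos (leaf r (by omega) β) = ![0, 1, 1] := by
  rw [leaf, pos_bot]
  simp only
  have h1 : Fin.last r + 1 = 0 := Fin.last_add_one r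
  have h2 : (⟨0, by omega⟩ : Fin r).succ = 1 := by
    apply Fin.ext
    rw [Fin.val_succ, Fin.val_one', Nat.mod_eq_of_lt (by omega)]
  rw [h1, h2]

/-- edges inside the classes of the three coordinates -/
theorem inner_zero (T : Finset (TIdx r)) (a b : Vx r)
    (hab : rel (by omega : 0 < r) T a b) (h : pos a 0 = pos b 0) :
    a = ctr r (by omega) ∧ ∃ β, b = leaf r (by omega) β := by
  rcases hab with h1 | ⟨h1, h2⟩ | ⟨t, -, rfl, rfl⟩ | h1
  · exact absurd h (h1 0)
  · exfalso
    obtain ⟨p, β⟩ := a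
    obtain ⟨p', β'⟩ := b
    simp only at h1 h2
    subst h1
    cases β <;> cases β'
    · exact h2 rfl
    · rw [pos_top, pos_bot] at h
      exact add_one_ne hr _ h.symm
    · rw [pos_top, pos_bot] at h
      exact add_one_ne hr _ h
    · exact h2 rfl
  · exfalso
    rw [tEnd_false, tEnd_true, pos_top, pos_top] at h
    exact add_one_ne hr _ h.symm
  · exact h1

theorem inner_one (T : Finset (TIdx r)) (a b : Vx r)
    (hab : rel (by omega : 0 < r) T a b) (h : pos a 1 = pos b 1) :
    a.1 = b.1 ∧ a.2 ≠ b.2 := by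
  rcases hab with h1 | ⟨h1, h2⟩ | ⟨t, -, rfl, rfl⟩ | ⟨rfl, β, rfl⟩
  · exact absurd h (h1 1)
  · exact ⟨h1, h2⟩
  · exfalso
    rw [tEnd_false, tEnd_true, pos_top, pos_top] at h
    exact add_one_ne hr _ h.symm
  · exfalso
    rw [pos_ctr hr, pos_leaf hr] at h
    exact one_ne_zero' hr h.symm

theorem inner_two (T : Finset (TIdx r)) (a b : Vx r)
    (hab : rel (by omega : 0 < r) T a b) (h : pos a 2 = pos b 2) :
    ∃ t ∈ T, a = tEnd t false ∧ b = tEnd t true := by
  rcases hab with h1 | ⟨h1, h2⟩ | h1 | ⟨rfl, β, rfl⟩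
  · exact absurd h (h1 2)
  · exfalso
    obtain ⟨p, β⟩ := a
    obtain ⟨p', β'⟩ := b
    simp only at h1 h2
    subst h1
    cases β <;> cases β'
    · exact h2 rfl
    · rw [pos_top, pos_bot] at h
      exact Fin.succ_ne_zero _ h.symm
    · rw [pos_top, pos_bot] at h
      exact Fin.succ_ne_zero _ h
    · exact h2 rfl
  · exact h1
  · exfalso
    rw [pos_ctr hr, pos_leaf hr] at h
    exact one_ne_zero' hr h.symm

/-- the centre and the leaves -/
theorem ctr_ne_leaf (β : Bool) : ctr r (by omega) ≠ leaf r (by omega) β := by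
  intro h
  have := congrArg Prod.snd h
  simp [ctr, leaf] at this

omit hr in
theorem leaf_ne (hr0 : 0 < r) : leaf r hr0 false ≠ leaf r hr0 true := by
  intro h
  have := congrArg (fun w : Vx r => w.1.2.2.2.1) h
  simp [leaf] at this

/-- composition with a swap -/
theorem star_pat (T : Finset (TIdx r)) : StarPat (r + 1) (lg (by omega : 0 < r) T) := by
  intro i
  refine ⟨fun w => Equiv.swap 0 i (pos w 0), ctr r (by omega), leaf r (by omega) false,
    leaf r (by omega) true, ?_, leaf_ne _, ctr_ne_leaf hr _, ctr_ne_leaf hr _, ?_, ?_, ?_⟩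
  · simp only [pos_ctr hr]
    exact Equiv.swap_apply_left _ _
  · simp only [pos_leaf hr]
    exact Equiv.swap_apply_left _ _
  · simp only [pos_leaf hr]
    exact Equiv.swap_apply_left _ _
  · intro a b hab hcc
    have hcc' : pos a 0 = pos b 0 := (Equiv.swap 0 i).injective hcc
    rw [lg, fromRel_adj] at hab
    rcases hab.2 with h | h
    · obtain ⟨h1, β, h2⟩ := inner_zero hr T a b h hcc'
      left
      refine ⟨h1, ?_⟩
      cases β
      · exact Or.inl h2
      · exact Or.inr h2
    · obtain ⟨h1, β, h2⟩ := inner_zero hr T b a h hcc'.symm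
      right
      refine ⟨h1, ?_⟩
      cases β
      · exact Or.inl h2
      · exact Or.inr h2

omit hr in
theorem tEnd_injective : Function.Injective (fun p : TIdx r × Bool => tEnd p.1 p.2) := by
  rintro ⟨t, β⟩ ⟨t', β'⟩ h
  obtain ⟨j, i, l, y⟩ := t
  obtain ⟨j', i', l', y'⟩ := t'
  cases β <;> cases β'
  · simp only [tEnd_false, Prod.mk.injEq] at h
    simp only [Prod.mk.injEq]
    tauto
  · simp [tEnd_false, tEnd_true] at h
  · simp [tEnd_false, tEnd_true] at h
  · simp only [tEnd_true, Prod.mk.injEq, add_left_inj] at h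
    simp only [Prod.mk.injEq]
    tauto

omit hr in
theorem pos_tEnd (t : TIdx r) (β : Bool) : pos (tEnd t β) 2 = 0 := by
  cases β <;> rfl

theorem match_pat (T : Finset (TIdx r)) (μ : ℕ) (hT : #T = μ + 1) :
    MatchPat (r + 1) μ (lg (by omega : 0 < r) T) := by
  intro i
  have g := T.equivFinOfCardEq hT
  refine ⟨fun w => Equiv.swap 0 i (pos w 2), fun p => tEnd (g.symm p.1 : TIdx r) p.2, ?_, ?_, ?_⟩
  · rintro ⟨m, β⟩ ⟨m', β'⟩ h
    have h1 := tEnd_injective (r := r) (a₁ := ((g.symm m : TIdx r), β))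
      (a₂ := ((g.symm m' : TIdx r), β')) h
    rw [Prod.mk.injEq] at h1
    rw [g.symm.injective (Subtype.ext h1.1), h1.2]
  · intro p
    simp only [pos_tEnd]
    exact Equiv.swap_apply_left _ _
  · intro a b hab hcc
    have hcc' : pos a 2 = pos b 2 := (Equiv.swap 0 i).injective hcc
    rw [lg, fromRel_adj] at hab
    rcases hab.2 with h | h
    · obtain ⟨t, ht, h1, h2⟩ := inner_two hr T a b h hcc'
      refine ⟨g ⟨t, ht⟩, false, ?_, ?_⟩
      · simp only [Equiv.symm_apply_apply]; exact h1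
      · simp only [Equiv.symm_apply_apply]; exact h2
    · obtain ⟨t, ht, h1, h2⟩ := inner_two hr T b a h hcc'.symm
      refine ⟨g ⟨t, ht⟩, true, ?_, ?_⟩
      · simp only [Equiv.symm_apply_apply]; exact h2
      · simp only [Equiv.symm_apply_apply]; exact h1

theorem tight_pat (T : Finset (TIdx r)) (μ : ℕ) (hμ : Fintype.card (Idx r) = μ) :
    TightPat (r + 1) μ (lg (by omega : 0 < r) T) := by
  have g := Fintype.equivFinOfCardEq hμ
  refine ⟨fun w => pos w 1, Equiv.prodCongr (Equiv.prodCongr (Equiv.refl _) g.symm)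
    (Equiv.refl _), ?_, ?_⟩
  · rintro ⟨⟨j, m⟩, β⟩
    cases β <;> rfl
  · intro a b hab hcc
    rw [lg, fromRel_adj] at hab
    have hin : a.1 = b.1 ∧ a.2 ≠ b.2 := by
      rcases hab.2 with h | h
      · exact inner_one hr T a b h hcc
      · have := inner_one hr T b a h hcc.symm
        exact ⟨this.1.symm, this.2.symm⟩
    obtain ⟨⟨j, m⟩, β⟩ := a
    obtain ⟨p', β'⟩ := b
    obtain ⟨h1, h2⟩ := hin
    simp only at h1 h2
    subst h1
    refine ⟨(j, g m), β, ?_, ?_⟩
    · simp
    · have : β' = !β := by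
        cases β <;> cases β' <;> simp_all
      rw [this]
      simp

/-- the vertices at a position -/
def blk (α : Fin 3 → Fin (r + 1)) (z : Bool × Fin (r + 1)) : Vx r :=
  if h : α 2 = 0 then ((α 1, α 0, ⟨0, by omega⟩, z.1, z.2), false)
  else ((α 1, α 0 - 1, (α 2).pred h, z.1, z.2), true)

theorem pos_blk (α : Fin 3 → Fin (r + 1)) (z : Bool × Fin (r + 1)) : pos (blk hr α z) = α := by
  rw [blk]
  split_ifs with h
  · rw [pos_top]
    funext t
    fin_cases t
    · rfl
    · rfl
    · exact h.symm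
  · rw [pos_bot]
    funext t
    fin_cases t
    · simp
    · rfl
    · simp

theorem blk_injective (α : Fin 3 → Fin (r + 1)) : Function.Injective (blk hr α) := by
  rintro ⟨b, y⟩ ⟨b', y'⟩ h
  have h1 := congrArg (fun w : Vx r => w.1.2.2.2) h
  rw [blk, blk] at h1
  split_ifs at h1 <;> exact h1

theorem rigid_pat (T : Finset (TIdx r)) (μ : ℕ) (hT : #T = μ + 1) :
    RigidPat (r + 1) μ (lg (by omega : 0 < r) T) := by
  classical
  intro c huniq hcard
  -- two vertices of the same colour at each position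
  have hmaj : ∀ α : Fin 3 → Fin (r + 1), ∃ a b : Vx r, a ≠ b ∧ pos a = α ∧ pos b = α ∧
      c a = c b := by
    intro α
    obtain ⟨z, z', hzz, hz⟩ := Fintype.exists_ne_map_eq_of_card_lt (fun z => c (blk hr α z)) (by
      simp only [Fintype.card_prod, Fintype.card_bool, Fintype.card_fin]
      omega)
    exact ⟨_, _, fun h => hzz (blk_injective hr α h), pos_blk hr α z, pos_blk hr α z', hz⟩
  choose a b hab ha hb hcab using hmaj
  have hadj : ∀ w w' : Vx r, (∀ t, pos w t ≠ pos w' t) →
      (lg (by omega : 0 < r) T).Adj w w' := by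
    intro w w' h
    rw [lg, fromRel_adj]
    refine ⟨?_, Or.inl (Or.inl h)⟩
    rintro rfl
    exact h 0 rfl
  have hkey : ∀ w α, (∀ t, pos w t ≠ α t) → c w ≠ c (a α) := by
    intro w α h hc
    refine hab α (huniq w (a α) (b α) ?_ ?_ hc.symm ?_)
    · exact hadj _ _ (by rw [ha]; exact h)
    · exact hadj _ _ (by rw [hb]; exact h)
    · rw [← hcab, hc]
  obtain ⟨i, g, hg, hproj⟩ := project hr (fun α => c (a α)) (by
    intro x y hxy
    exact hkey (a x) y (by rw [ha]; exact hxy))
  have hgs : Function.Surjective g := Finite.surjective_of_injective hg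
  have hc : ∀ w, c w = g (pos w i) := by
    intro w
    obtain ⟨s, hs⟩ := hgs (c w)
    by_cases hsi : s = pos w i
    · rw [← hs, hsi]
    · exfalso
      choose β hβ _ using fun t => exists_ne_ne hr (pos w t) (pos w t)
      refine hkey w (Function.update β i s) ?_ ?_
      · intro t
        by_cases ht : t = i
        · subst ht
          rw [Function.update_self]
          exact fun h => hsi h.symm
        · rw [Function.update_of_ne ht]
          exact (hβ t).symm
      · have h2 := hproj (Function.update β i s)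
        rw [Function.update_self, hs] at h2
        exact h2.symm
  have hadjM : ∀ p : Fin (r + 1) × Idx r, ∀ β β' : Bool, β ≠ β' →
      (lg (by omega : 0 < r) T).Adj (p, β) (p, β') := by
    intro p β β' h
    rw [lg, fromRel_adj]
    refine ⟨fun h' => h (congrArg Prod.snd h'), Or.inl (Or.inr (Or.inl ⟨rfl, h⟩))⟩
  have hadjS : ∀ β, (lg (by omega : 0 < r) T).Adj (ctr r (by omega)) (leaf r (by omega) β) := by
    intro β
    rw [lg, fromRel_adj]
    exact ⟨ctr_ne_leaf hr β, Or.inl (Or.inr (Or.inr (Or.inr ⟨rfl, β, rfl⟩)))⟩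
  have hadjT : ∀ t ∈ T, (lg (by omega : 0 < r) T).Adj (tEnd t false) (tEnd t true) := by
    intro t ht
    rw [lg, fromRel_adj]
    refine ⟨?_, Or.inl (Or.inr (Or.inr (Or.inl ⟨t, ht, rfl, rfl⟩)))⟩
    intro h
    have := tEnd_injective (r := r) (a₁ := (t, false)) (a₂ := (t, true)) h
    simp at this
  fin_cases i
  · -- coordinate 0: the star
    exfalso
    simp only [Fin.zero_eta] at hc
    refine leaf_ne (r := r) (by omega) (huniq (ctr r (by omega)) _ _ (hadjS false) (hadjS true)
      ?_ ?_)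
    · rw [hc, hc, pos_ctr hr, pos_leaf hr]; rfl
    · rw [hc, hc, pos_ctr hr, pos_leaf hr]; rfl
  · -- coordinate 1: the perfect matching
    simp only [Fin.mk_one] at hc
    rintro ⟨p, β⟩
    refine ⟨(p, !β), hadjM p β (!β) (by cases β <;> simp), ?_⟩
    rw [hc, hc]
    cases β <;> rfl
  · -- coordinate 2: too many matched vertices
    exfalso
    simp only [Fin.reduceFinMk] at hc
    have h1 := hcard (g 0)
    have h2 : #((T ×ˢ (Finset.univ : Finset Bool)).image
        (fun p : TIdx r × Bool => tEnd p.1 p.2)) = (μ + 1) * 2 := by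
      rw [Finset.card_image_of_injective _ tEnd_injective, Finset.card_product, hT,
        Finset.card_univ, Fintype.card_bool]
    have h3 : (T ×ˢ (Finset.univ : Finset Bool)).image
        (fun p : TIdx r × Bool => tEnd p.1 p.2) ⊆ Finset.univ.filter
        (fun w => c w = g 0 ∧ ∃ x, (lg (by omega : 0 < r) T).Adj w x ∧ c x = c w) := by
      intro w hw
      obtain ⟨⟨t, β⟩, ht, rfl⟩ := Finset.mem_image.1 hw
      rw [Finset.mem_product] at ht
      rw [Finset.mem_filter]
      refine ⟨Finset.mem_univ _, ?_, ?_⟩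
      · rw [hc, pos_tEnd]
      · cases β
        · refine ⟨tEnd t true, hadjT t ht.1, ?_⟩
          simp only [hc, pos_tEnd]
        · refine ⟨tEnd t false, (hadjT t ht.1).symm, ?_⟩
          simp only [hc, pos_tEnd]
    have h4 := Finset.card_le_card h3
    omega

/-- The result for at least three classes. -/
theorem many : ∃ L : SimpleGraph (Vx r), L.Connected ∧ L.chromaticNumber = (r + 1 : ℕ) + 1 ∧
    (∃ C N : ℕ, ∀ n, N ≤ n → ∃ G : SimpleGraph (Fin n),
      Nat.card G.edgeSet = extremalNumber n L + 1 ∧ G.copyCount L ≤ C) := by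
  obtain ⟨μ, hμ⟩ : ∃ μ, Fintype.card (Idx r) = μ := ⟨_, rfl⟩
  have hμ2 : μ = 2 * ((r + 1) * r * (r + 1)) := by
    rw [← hμ]
    simp only [Fintype.card_prod, Fintype.card_fin, Fintype.card_bool]
    ring
  have hpos : 0 < (r + 1) * r * (r + 1) := by positivity
  obtain ⟨T, -, hT⟩ := Finset.exists_subset_card_eq (s := (Finset.univ : Finset (TIdx r)))
    (n := μ + 1) (by
      rw [Finset.card_univ]
      simp only [Fintype.card_prod, Fintype.card_fin]
      have h1 : (r + 1) * ((r + 1) * (r * (r + 1))) = (r + 1) * ((r + 1) * r * (r + 1)) := by ring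
      rw [h1, hμ2]
      have h2 : 3 * ((r + 1) * r * (r + 1)) ≤ (r + 1) * ((r + 1) * r * (r + 1)) :=
        Nat.mul_le_mul_right _ (by omega)
      omega)
  exact ⟨lg (by omega) T, conclude (by omega) (by omega) (star_pat hr T) (match_pat hr T μ hT)
    (tight_pat hr T μ hμ) (rigid_pat hr T μ hT)⟩

end

end Pool.Agent.H32.Tight
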