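import Mathlib
import Pool.Agent.H32.Tight.Conclude

/-!
# A graph with twenty vertices for two classes
-/

namespace Pool.Agent.H32.Tight.Two

open Finset SimpleGraph

/-- neighbourhoods as bit masks -/
def mask : Fin 20 → ℕ :=
  ![75778, 5185, 135688, 67012, 10528, 5200, 170, 32840, 33304, 540932,
    18474, 263185, 8230, 266257, 165376, 82304, 163849, 606212, 534528, 393728]

/-- adjacency -/
def E (i j : Fin 20) : Bool := (mask i).testBit j

/-- the graph -/
def lt : SimpleGraph (Fin 20) where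
  Adj i j := E i j = true
  symm := ⟨by decide +kernel⟩
  loopless := ⟨by decide +kernel⟩

instance : DecidableRel lt.Adj := fun i j => inferInstanceAs (Decidable (E i j = true))

/-- first partition -/
def c1 : Fin 20 → Fin 2 := ![0, 1, 1, 0, 0, 1, 0, 1, 1, 0, 0, 1, 0, 1, 1, 0, 1, 0, 0, 1]

/-- second partition -/
def c2 : Fin 20 → Fin 2 := ![0, 0, 0, 0, 0, 0, 1, 1, 1, 1, 1, 1, 1, 1, 0, 0, 1, 1, 0, 0]

/-- third partition -/
def c3 : Fin 20 → Fin 2 := ![0, 1, 0, 1, 0, 1, 0, 0, 0, 1, 0, 1, 0, 1, 0, 1, 0, 1, 0, 0]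

/-- the pairs of the second partition -/
def e2 (p : (Fin 2 × Fin 5) × Bool) : Fin 20 :=
  (if p.2 then (![![1, 3, 5, 15, 19], ![7, 9, 11, 13, 17]] : Fin 2 → Fin 5 → Fin 20)
  else ![![0, 2, 4, 14, 18], ![6, 8, 10, 12, 16]]) p.1.1 p.1.2

/-- the pairs of the third partition -/
def e3 (p : Fin 6 × Bool) : Fin 20 :=
  (if p.2 then (![16, 12, 8, 7, 14, 19] : Fin 6 → Fin 20)
  else ![0, 2, 4, 6, 10, 18]) p.1

theorem star_pat : StarPat 2 lt := by
  intro i
  have key : ∀ a b : Fin 20, lt.Adj a b → c1 a = c1 b →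
      (a = 3 ∧ (b = 6 ∨ b = 10)) ∨ (b = 3 ∧ (a = 6 ∨ a = 10)) := by decide +kernel
  refine ⟨fun w => Equiv.swap 0 i (c1 w), 3, 6, 10, ?_, by decide, by decide, by decide,
    ?_, ?_, ?_⟩
  · exact Equiv.swap_apply_left _ _
  · exact Equiv.swap_apply_left _ _
  · exact Equiv.swap_apply_left _ _
  · intro a b hab h
    exact key a b hab ((Equiv.swap 0 i).injective h)

theorem match_pat : MatchPat 2 5 lt := by
  intro i
  have key : ∀ a b : Fin 20, lt.Adj a b → c3 a = c3 b →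
      ∃ (j : Fin 6) (β : Bool), a = e3 (j, β) ∧ b = e3 (j, !β) := by decide +kernel
  have hc : ∀ p : Fin 6 × Bool, c3 (e3 p) = 0 := by decide +kernel
  refine ⟨fun w => Equiv.swap 0 i (c3 w), e3, by decide +kernel, ?_, ?_⟩
  · intro p
    simp only [hc]
    exact Equiv.swap_apply_left _ _
  · intro a b hab h
    exact key a b hab ((Equiv.swap 0 i).injective h)

theorem tight_pat : TightPat 2 5 lt := by
  have key : ∀ a b : Fin 20, lt.Adj a b → c2 a = c2 b →
      ∃ (j : Fin 2 × Fin 5) (β : Bool), a = e2 (j, β) ∧ b = e2 (j, !β) := by decide +kernel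
  have hc : ∀ p : (Fin 2 × Fin 5) × Bool, c2 (e2 p) = p.1.1 := by decide +kernel
  have hb : Function.Bijective e2 := by decide +kernel
  exact ⟨c2, Equiv.ofBijective e2 hb, hc, key⟩

/-- search trees -/
inductive Tree
  | nae (b : Fin 2) (i j k : Fin 20)
  | cnt (b : Fin 2) (S : List (Fin 20))
  | done
  | node (i : Fin 20) (s t : Tree)

/-- verification of a search tree under a list of assignments -/
def check : Tree → List (Fin 20 × Fin 2) → Bool
  | .nae b i j k, a => decide (j ≠ k ∧ E i j = true ∧ E i k = true ∧ (i, b) ∈ a ∧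
      (j, b) ∈ a ∧ (k, b) ∈ a)
  | .cnt b S, a => decide (S.Nodup ∧ S.length = 11 ∧
      ∀ i ∈ S, (i, b) ∈ a ∧ ∃ j, E i j = true ∧ (j, b) ∈ a)
  | .done, a => decide (∀ i, ∃ j, E i j = true ∧ ∃ b, (i, b) ∈ a ∧ (j, b) ∈ a)
  | .node i s t, a => check s ((i, 0) :: a) && check t ((i, 1) :: a)

open scoped Classical in
theorem sound (c : Fin 20 → Fin 2)
    (huniq : ∀ w x y, lt.Adj w x → lt.Adj w y → c x = c w → c y = c w → x = y)
    (hcard : ∀ i, #{w | c w = i ∧ ∃ x, lt.Adj w x ∧ c x = c w} ≤ 2 * 5) :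
    ∀ (t : Tree) (a : List (Fin 20 × Fin 2)), (∀ p ∈ a, c p.1 = p.2) → check t a = true →
    ∀ w, ∃ x, lt.Adj w x ∧ c x = c w := by
  intro t
  induction t with
  | nae b i j k =>
    intro a ha h
    rw [check, decide_eq_true_iff] at h
    obtain ⟨h1, h2, h3, h4, h5, h6⟩ := h
    have e1 := ha _ h4
    have e2 := ha _ h5
    have e3 := ha _ h6
    simp only at e1 e2 e3
    exact absurd (huniq i j k h2 h3 (by rw [e1, e2]) (by rw [e1, e3])) h1
  | cnt b S =>
    intro a ha h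
    rw [check, decide_eq_true_iff] at h
    obtain ⟨h1, h2, h3⟩ := h
    exfalso
    have h4 : S.toFinset ⊆ Finset.univ.filter
        (fun w => c w = b ∧ ∃ x, lt.Adj w x ∧ c x = c w) := by
      intro i hi
      rw [List.mem_toFinset] at hi
      obtain ⟨h5, j, h6, h7⟩ := h3 i hi
      rw [Finset.mem_filter]
      have e1 := ha _ h5
      have e2 := ha _ h7
      simp only at e1 e2
      exact ⟨Finset.mem_univ _, e1, j, h6, by rw [e1, e2]⟩
    have h5 := Finset.card_le_card h4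
    rw [List.toFinset_card_of_nodup h1, h2] at h5
    have h6 := hcard b
    omega
  | done =>
    intro a ha h
    rw [check, decide_eq_true_iff] at h
    intro w
    obtain ⟨j, h1, b, h2, h3⟩ := h w
    have e1 := ha _ h2
    have e2 := ha _ h3
    simp only at e1 e2
    exact ⟨j, h1, by rw [e1, e2]⟩
  | node i s t ihs iht =>
    intro a ha h
    rw [check, Bool.and_eq_true] at h
    have h2 : c i = 0 ∨ c i = 1 := by
      have := (c i).2
      rcases Nat.lt_or_ge (c i : ℕ) 1 with h | h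
      · left; exact Fin.ext (by simpa using h)
      · right; exact Fin.ext (by simp; omega)
    rcases h2 with h2 | h2
    · refine ihs _ ?_ h.1
      intro p hp
      rcases List.mem_cons.1 hp with rfl | hp
      · exact h2
      · exact ha p hp
    · refine iht _ ?_ h.2
      intro p hp
      rcases List.mem_cons.1 hp with rfl | hp
      · exact h2
      · exact ha p hp

/-- the search tree -/
def tree : Tree :=
    .node 3 (.node 10 (.node 1 (.nae 0 10 1 3) (.node 6 (.nae 0 3 6 10) (.node 5 (.nae 0 10 3 5)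
    (.nae 1 6 1 5)))) (.node 1 (.node 6 (.nae 0 6 1 3) (.node 5 (.node 12 (.nae 0 12 1 5) (.node 2
    (.node 7 (.nae 0 3 2 7) (.node 8 (.nae 0 3 2 8) (.node 9 (.nae 0 2 3 9) (.node 4 (.node 11
    (.nae 0 4 5 11) (.node 0 (.node 13 (.nae 0 0 1 13) (.node 14 (.node 15 (.node 16 (.nae 0 0 1
    16) (.node 17 (.nae 0 2 3 17) (.node 18 (.node 19 (.done) (.nae 1 9 8 19)) (.nae 1 11 10
    18)))) (.nae 1 7 6 15)) (.nae 1 9 8 14))) (.nae 1 11 0 10))) (.nae 1 8 4 9))))) (.node 9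
    (.node 8 (.nae 0 8 3 9) (.node 13 (.node 4 (.nae 0 4 5 13) (.node 0 (.nae 0 0 1 13) (.node 11
    (.node 18 (.nae 0 18 11 13) (.node 15 (.node 14 (.nae 0 14 9 15) (.node 16 (.nae 0 16 3 15)
    (.node 17 (.node 7 (.nae 0 7 3 15) (.node 19 (.nae 0 19 9 17) (.cnt 1 [0, 2, 4, 6, 7, 8, 10,
    12, 14, 16, 18]))) (.nae 1 2 12 17)))) (.nae 1 8 4 15))) (.nae 1 4 8 11)))) (.nae 1 12 2 13)))
    (.nae 1 2 9 12)))) (.nae 1 5 6 10))) (.node 6 (.node 5 (.nae 0 6 3 5) (.nae 1 10 1 5)) (.nae 1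
    1 6 10)))) (.node 10 (.node 1 (.node 6 (.nae 0 1 6 10) (.node 5 (.nae 0 10 1 5) (.nae 1 6 3
    5))) (.node 6 (.node 5 (.nae 0 5 6 10) (.node 12 (.node 2 (.node 9 (.nae 0 2 9 12) (.node 8
    (.node 13 (.nae 0 12 2 13) (.node 4 (.node 0 (.node 11 (.nae 0 4 8 11) (.node 18 (.node 15
    (.nae 0 8 4 15) (.node 14 (.node 16 (.node 17 (.nae 0 2 12 17) (.node 7 (.node 19 (.cnt 0 [0,
    2, 4, 6, 7, 8, 10, 12, 14, 16, 18]) (.nae 1 19 9 17)) (.nae 1 7 3 15))) (.nae 1 16 3 15))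
    (.nae 1 14 9 15))) (.nae 1 18 11 13))) (.nae 1 0 1 13)) (.nae 1 4 5 13))) (.nae 1 8 3 9)))
    (.node 7 (.node 8 (.node 9 (.node 4 (.nae 0 8 4 9) (.node 11 (.node 0 (.nae 0 11 0 10) (.node
    13 (.node 14 (.nae 0 9 8 14) (.node 15 (.nae 0 7 6 15) (.node 16 (.node 17 (.node 18 (.nae 0
    11 10 18) (.node 19 (.nae 0 9 8 19) (.done))) (.nae 1 2 3 17)) (.nae 1 0 1 16)))) (.nae 1 0 1
    13))) (.nae 1 4 5 11))) (.nae 1 2 3 9)) (.nae 1 3 2 8)) (.nae 1 3 2 7))) (.nae 1 12 1 5)))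
    (.nae 1 6 1 3))) (.node 1 (.node 6 (.node 5 (.nae 0 6 1 5) (.nae 1 10 3 5)) (.nae 1 3 6 10))
    (.nae 1 10 1 3)))

theorem check_tree : check tree [] = true := by decide +kernel

theorem rigid_pat : RigidPat 2 5 lt := by
  intro c huniq hcard
  exact sound c huniq (fun i => by convert hcard i) tree [] (by simp) check_tree

/-- The result for two classes. -/
theorem two : ∃ L : SimpleGraph (Fin 20), L.Connected ∧ L.chromaticNumber = (2 : ℕ) + 1 ∧
    (∃ C N : ℕ, ∀ n, N ≤ n → ∃ G : SimpleGraph (Fin n),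
      Nat.card G.edgeSet = extremalNumber n L + 1 ∧ G.copyCount L ≤ C) :=
  ⟨lt, conclude le_rfl (by omega) star_pat match_pat tight_pat rigid_pat⟩

end Pool.Agent.H32.Tight.Two
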